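import Pool.Agent.Lib.MP_b1acb3_co.Cyc.Stmts

/-!
Choice of disjoint blocks.
-/

namespace Pool.Agent.Lib.MP_b1acb3_co.Cyc

open Finset

theorem blocks (h : StEar) : StBlocks := by
  classical
  intro n K B hE hK q
  induction q with
  | zero =>
    intro k d F x _ _ _
    exact ⟨fun i => i.elim0, fun i => i.elim0, fun i => i.elim0, fun i => i.elim0⟩
  | succ q ih =>
    intro k d F x hdk h1 h2
    obtain ⟨σ, hσ1, hσ2, hσ3⟩ := ih k d F (fun i => x i.castSucc) hdk
      (le_trans (Nat.mul_le_mul_left _ (Nat.add_le_add_left
        (Nat.mul_le_mul_right _ (Nat.le_succ q)) _)) h1) h2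
    set T : Finset (Fin K) := (univ : Finset (Fin q × Fin k)).image (fun p => σ p.1 p.2) with hT
    have hTcard : T.card ≤ q * k := by
      refine card_image_le.trans ?_
      rw [card_univ, Fintype.card_prod, Fintype.card_fin, Fintype.card_fin]
    have hU : (F ∪ T).card + k ≤ F.card + (q + 1) * k := by
      have h3 := card_union_le F T
      have h4 : (q + 1) * k = q * k + k := by ring
      omega
    obtain ⟨τ, hτ1, hτ2, hτ3⟩ := h n K B hE hK k d (F ∪ T) (x (Fin.last q)) hdk
      (le_trans (Nat.mul_le_mul_left _ hU) h1) h2
    have hmix : ∀ i j j', σ i j ≠ τ j' := by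
      intro i j j' hc
      apply hτ2 j'
      rw [← hc, mem_union]
      right
      rw [hT, mem_image]
      exact ⟨(i, j), mem_univ _, rfl⟩
    refine ⟨fun i => Fin.lastCases τ σ i, ?_, ?_, ?_⟩
    · intro i j i' j'
      induction i using Fin.lastCases with
      | last =>
        induction i' using Fin.lastCases with
        | last =>
          intro hc
          simp only [Fin.lastCases_last] at hc
          exact ⟨rfl, hτ1 hc⟩
        | cast i' =>
          intro hc
          simp only [Fin.lastCases_last, Fin.lastCases_castSucc] at hc
          exact absurd hc.symm (hmix _ _ _)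
      | cast i =>
        induction i' using Fin.lastCases with
        | last =>
          intro hc
          simp only [Fin.lastCases_last, Fin.lastCases_castSucc] at hc
          exact absurd hc (hmix _ _ _)
        | cast i' =>
          intro hc
          simp only [Fin.lastCases_castSucc] at hc
          obtain ⟨h3, h4⟩ := hσ1 i j i' j' hc
          exact ⟨by rw [h3], h4⟩
    · intro i j
      induction i using Fin.lastCases with
      | last =>
        simp only [Fin.lastCases_last]
        exact fun hc => hτ2 j (mem_union_left _ hc)
      | cast i =>
        simp only [Fin.lastCases_castSucc]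
        exact hσ2 i j
    · intro i
      induction i using Fin.lastCases with
      | last =>
        simp only [Fin.lastCases_last]
        exact hτ3
      | cast i =>
        simp only [Fin.lastCases_castSucc]
        exact hσ3 i

end Pool.Agent.Lib.MP_b1acb3_co.Cyc
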