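import Pool.Agent.Lib.MP_b1acb3_co.Cyc.Stmts

/-!
(C0) Rainbow embedding of the part `G[W₀]`.
-/

namespace Pool.Agent.Lib.MP_b1acb3_co.Cyc

open Finset

/-- Rainbow embedding of a part with few pairs of edges. -/
theorem core_pos {V : Type} [Fintype V] (G : SimpleGraph V) (W : Finset V) (Δ : ℕ)
    (hΔ : MaxDegIn G W Δ)
    (h : (numEdgesIn G W).choose 2 ≤ numEdges G ∨
      16 * Δ * (numEdgesIn G W - 1) ≤ numEdges G) :
    ∃ ε : ℝ, 0 < ε ∧ ∃ n₀ : ℕ, ∀ n : ℕ, n₀ ≤ n → ∀ c : Sym2 (Fin n) → Fin (numEdges G + 1),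
      IsBalanced ε c → ∃ f : V → Fin n, Function.Injective f ∧
        Set.InjOn (fun e : Sym2 V => c (e.map f)) (edgesIn G W : Set (Sym2 V)) := by
  classical
  set e := numEdges G with he
  set K : ℝ := (e : ℝ) + 1 with hK
  have hK1 : 1 ≤ K := by
    have : (0 : ℝ) ≤ e := Nat.cast_nonneg _
    linarith
  set p : ℝ := 2 / (2 * K - 1) with hp
  have hden : 0 < 2 * K - 1 := by linarith
  have hp0 : 0 < p := by positivity
  have hcond : ((numEdgesIn G W).choose 2 : ℝ) * p < 1 ∨
      (2 * p < 1 ∧ 4 * p * (4 * Δ * (numEdgesIn G W - 1 : ℕ)) ≤ 1) := by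
    by_cases h1 : (numEdgesIn G W).choose 2 ≤ e
    · left
      have h1' : ((numEdgesIn G W).choose 2 : ℝ) ≤ K - 1 := by
        rw [hK]
        have : ((numEdgesIn G W).choose 2 : ℝ) ≤ e := by exact_mod_cast h1
        linarith
      rw [hp, ← mul_div_assoc, div_lt_one hden]
      linarith
    · right
      have h2 := h.resolve_left h1
      have h3 : 2 ≤ numEdgesIn G W := by
        by_contra hc
        push Not at hc
        apply h1
        rw [Nat.choose_eq_zero_of_lt hc]
        exact Nat.zero_le _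
      have h4 : numEdgesIn G W ≤ e := by
        rw [← card_edgesIn, he, ← numEdgesIn_univ, ← card_edgesIn]
        apply card_le_card
        intro x hx
        rw [mem_edgesIn] at hx ⊢
        exact ⟨hx.1, fun _ _ => mem_univ _⟩
      have h5 : (2 : ℝ) ≤ e := by exact_mod_cast h3.trans h4
      have h2' : (16 : ℝ) * Δ * (numEdgesIn G W - 1 : ℕ) ≤ K - 1 := by
        rw [hK]
        have : ((16 * Δ * (numEdgesIn G W - 1) : ℕ) : ℝ) ≤ (e : ℝ) := by exact_mod_cast h2
        push_cast at this ⊢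
        linarith
      constructor
      · rw [hp, ← mul_div_assoc, div_lt_one hden]
        linarith
      · have h6 : 4 * p * (4 * Δ * (numEdgesIn G W - 1 : ℕ)) =
            ((16 : ℝ) * Δ * (numEdgesIn G W - 1 : ℕ)) * p := by ring
        rw [h6]
        calc ((16 : ℝ) * Δ * (numEdgesIn G W - 1 : ℕ)) * p ≤ (K - 1) * p :=
              mul_le_mul_of_nonneg_right h2' hp0.le
          _ ≤ 1 := by
              rw [hp, ← mul_div_assoc, div_le_one hden]
              linarith
  obtain ⟨δ, hδ, hcore⟩ := core_count G W Δ hΔ p hp0.le hcond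
  obtain ⟨N, hN⟩ := exists_nat_gt ((Fintype.card V : ℝ) ^ 2 / δ + 2 * K * Fintype.card V + 4 * K ^ 2)
  refine ⟨1 / (4 * K ^ 2), by positivity, N + 1, ?_⟩
  intro n hn c hc
  have hn0 : 0 < n := by omega
  have hnR : ((Fintype.card V : ℝ) ^ 2 / δ + 2 * K * Fintype.card V + 4 * K ^ 2) < n := by
    have : (N : ℝ) ≤ n := by exact_mod_cast (by omega : N ≤ n)
    linarith
  have hv0 : (0 : ℝ) ≤ (Fintype.card V : ℝ) := Nat.cast_nonneg _
  have hn1 : (Fintype.card V : ℝ) ^ 2 / δ < n := by
    have : 0 ≤ 2 * K * Fintype.card V + 4 * K ^ 2 := by positivity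
    linarith
  have hn2 : 2 * K * Fintype.card V < n := by
    have : 0 ≤ (Fintype.card V : ℝ) ^ 2 / δ + 4 * K ^ 2 := by positivity
    linarith
  have hn3 : 4 * K ^ 2 < n := by
    have : 0 ≤ (Fintype.card V : ℝ) ^ 2 / δ + 2 * K * Fintype.card V := by positivity
    linarith
  have hnpos : (0 : ℝ) < n := by exact_mod_cast hn0
  have hKcast : (((numEdges G + 1 : ℕ)) : ℝ) = K := by
    rw [hK, he]
    push_cast
    ring
  have hup : ∀ i k, (colourDegree c i k : ℝ) + 1 ≤ p * n := by
    intro i k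
    refine (colourDegree_le (Nat.succ_pos _) _ c hc i k).trans ?_
    rw [hKcast, hp]
    have hKne : K ≠ 0 := by linarith
    have e1 : (n : ℝ) - (K - 1) * ((1 - 1 / (4 * K ^ 2)) * n / K) =
        n * (1 / K + (K - 1) / (4 * K ^ 3)) := by
      field_simp
      ring
    rw [e1, mul_comm (2 / (2 * K - 1)) (n : ℝ)]
    apply mul_le_mul_of_nonneg_left _ hnpos.le
    rw [div_add_div _ _ (by positivity) (by positivity), div_le_div_iff₀ (by positivity) hden]
    have hK0 : 0 < K := by linarith
    nlinarith [mul_pos hK0 hK0, mul_pos (mul_pos hK0 hK0) hK0,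
      mul_nonneg (by linarith : 0 ≤ K - 1) hK0.le]
  obtain ⟨Gd, hGd1, hGd2⟩ := hcore n hn0 _ c hup
  obtain ⟨f₀, hf₀, hf₀'⟩ : ∃ f ∈ Gd, Function.Injective f := by
    by_contra hcon
    push Not at hcon
    have h1 : Gd ⊆ univ.filter (fun f : V → Fin n => ¬ Function.Injective f) := by
      intro f hf
      rw [mem_filter]
      exact ⟨mem_univ _, hcon f hf⟩
    have h2 : (Gd.card : ℝ) ≤
        ((univ.filter (fun f : V → Fin n => ¬ Function.Injective f)).card : ℝ) := by
      exact_mod_cast card_le_card h1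
    have h3 := card_noninj (V := V) (n := n)
    have hcardpos : (0 : ℝ) < ((univ : Finset (V → Fin n)).card : ℝ) := by
      have : (univ : Finset (V → Fin n)).Nonempty := ⟨fun _ => ⟨0, hn0⟩, mem_univ _⟩
      exact_mod_cast card_pos.2 this
    have h4 : (δ * n) * ((univ : Finset (V → Fin n)).card : ℝ) ≤
        ((Fintype.card V : ℝ) ^ 2) * ((univ : Finset (V → Fin n)).card : ℝ) := by
      calc (δ * n) * ((univ : Finset (V → Fin n)).card : ℝ) =
          (δ * ((univ : Finset (V → Fin n)).card : ℝ)) * n := by ring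
        _ ≤ ((univ.filter (fun f : V → Fin n => ¬ Function.Injective f)).card : ℝ) * n :=
            mul_le_mul_of_nonneg_right (hGd1.trans h2) hnpos.le
        _ ≤ _ := h3
    have h5 := le_of_mul_le_mul_right h4 hcardpos
    rw [div_lt_iff₀ hδ] at hn1
    linarith
  exact ⟨f₀, hf₀', hGd2 f₀ hf₀⟩

/-- (C0) Rainbow embedding of the part `G[W₀]`. -/
theorem core : StCore := by
  intro V _ G W d hdeg h
  classical
  by_cases h1 : (numEdgesIn G W).choose 2 ≤ numEdges G
  · exact core_pos G W (Fintype.card V) (by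
      intro v _
      rw [← Nat.card_eq_fintype_card, ← Set.ncard_univ]
      exact Set.ncard_le_ncard (Set.subset_univ _)) (Or.inl h1)
  have h2 := h.resolve_left h1
  have hh : 2 ≤ numEdgesIn G W := by
    by_contra hc
    push Not at hc
    apply h1
    rw [Nat.choose_eq_zero_of_lt hc]
    exact Nat.zero_le _
  obtain ⟨r, hr, hd⟩ := hdeg
  have hd' : ∀ v ∈ W, (back G W r v).card ≤ d := by
    intro v hv
    refine le_trans (le_of_eq ?_) (hd v hv)
    rw [← Set.ncard_coe_finset]
    congr 1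
    ext u
    rw [mem_coe, mem_back]
    rfl
  have hd1 : 1 ≤ d := by
    by_contra hc
    have hd0 : d = 0 := by omega
    subst hd0
    -- no edges in the core
    have h3 : (edgesIn G W).Nonempty := by
      rw [← card_pos, card_edgesIn]
      omega
    obtain ⟨e, he⟩ := h3
    rw [mem_edgesIn] at he
    induction e using Sym2.ind with
    | _ a b =>
      have ha := he.2 a (Sym2.mem_mk_left a b)
      have hb := he.2 b (Sym2.mem_mk_right a b)
      have hadj : G.Adj a b := he.1
      rcases lt_trichotomy (r a) (r b) with h | h | h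
      · have h4 : a ∈ back G W r b := (mem_back G W r b a).2 ⟨ha, hadj.symm, h⟩
        have h5 := hd' b hb
        rw [Nat.le_zero, card_eq_zero] at h5
        rw [h5] at h4
        simp at h4
      · exact absurd (hr ha hb h) (G.ne_of_adj hadj)
      · have h4 : b ∈ back G W r a := (mem_back G W r a b).2 ⟨hb, hadj, h⟩
        have h5 := hd' a ha
        rw [Nat.le_zero, card_eq_zero] at h5
        rw [h5] at h4
        simp at h4
  set e := numEdges G with he
  set K : ℝ := (e : ℝ) + 1 with hK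
  have hdR : (1 : ℝ) ≤ d := by exact_mod_cast hd1
  have hhR : (2 : ℝ) ≤ (numEdgesIn G W : ℝ) := by exact_mod_cast hh
  have hKR : 2 * (d : ℝ) * (numEdgesIn G W : ℝ) ≤ K := by
    rw [hK]
    exact_mod_cast h2
  have hK4 : 4 ≤ K := by nlinarith
  have hK1 : 1 ≤ K := by linarith
  set p : ℝ := 2 / (2 * K - 1) with hp
  have hden : 0 < 2 * K - 1 := by linarith
  have hp0 : 0 < p := by positivity
  obtain ⟨N, hN⟩ := exists_nat_gt (64 * d * K * (W.card + 1) + 2 * K * Fintype.card V)
  refine ⟨1 / (4 * K ^ 2), by positivity, N + 1, ?_⟩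
  intro n hn c hc
  have hn0 : 0 < n := by omega
  have hnR : (64 * d * K * (W.card + 1) + 2 * K * Fintype.card V : ℝ) < n := by
    have : (N : ℝ) ≤ n := by exact_mod_cast (by omega : N ≤ n)
    linarith
  have hv0 : (0 : ℝ) ≤ (Fintype.card V : ℝ) := Nat.cast_nonneg _
  have hn1 : (64 * d * K * (W.card + 1) : ℝ) < n := by
    have : 0 ≤ 2 * K * Fintype.card V := by positivity
    linarith
  have hn2 : 2 * K * Fintype.card V < n := by
    have : (0 : ℝ) ≤ 64 * d * K * (W.card + 1) := by positivity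
    linarith
  have hnpos : (0 : ℝ) < n := by exact_mod_cast hn0
  have hKcast : (((numEdges G + 1 : ℕ)) : ℝ) = K := by
    rw [hK, he]
    push_cast
    ring
  have hup : ∀ i k, (colourDegree c i k : ℝ) + 1 ≤ p * n := by
    intro i k
    refine (colourDegree_le (Nat.succ_pos _) _ c hc i k).trans ?_
    rw [hKcast, hp]
    have hKne : K ≠ 0 := by linarith
    have e1 : (n : ℝ) - (K - 1) * ((1 - 1 / (4 * K ^ 2)) * n / K) =
        n * (1 / K + (K - 1) / (4 * K ^ 3)) := by
      field_simp
      ring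
    rw [e1, mul_comm (2 / (2 * K - 1)) (n : ℝ)]
    apply mul_le_mul_of_nonneg_left _ hnpos.le
    rw [div_add_div _ _ (by positivity) (by positivity), div_le_div_iff₀ (by positivity) hden]
    have hK0 : 0 < K := by linarith
    nlinarith [mul_pos hK0 hK0, mul_pos (mul_pos hK0 hK0) hK0,
      mul_nonneg (by linarith : 0 ≤ K - 1) hK0.le]
  obtain ⟨hγpos, hΦ⟩ := params K (W.card : ℝ) d (numEdgesIn G W) hdR hhR hKR
    (Nat.cast_nonneg _) n hn1
  have hd1' : (((d - 1 : ℕ)) : ℝ) = (d : ℝ) - 1 := by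
    rw [Nat.cast_sub hd1]
    norm_num
  obtain ⟨f, hf1, hf2⟩ := core_degenerate G W c r hr d hd' _ (p * n) hγpos hup le_rfl
    (by rw [hd1']; exact hΦ) hn0
  have hVn : Fintype.card V ≤ n := by
    have : (Fintype.card V : ℝ) ≤ n := by nlinarith
    exact_mod_cast this
  obtain ⟨f₀, hf₀, hf₀'⟩ := extend_inj W f hf1 hVn
  have hf₀'' : Set.InjOn (fun e : Sym2 V => c (e.map f₀)) (edgesIn G W : Set (Sym2 V)) := by
    intro a ha b hb hab
    have hmap : ∀ e ∈ edgesIn G W, e.map f₀ = e.map f := fun e he =>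
      map_congr_of e f₀ f (fun x hx => hf₀' x (((mem_edgesIn G W e).1 he).2 x hx))
    apply hf2 ha hb
    simp only at hab ⊢
    rwa [hmap a ha, hmap b hb] at hab
  exact ⟨f₀, hf₀, hf₀''⟩

end Pool.Agent.Lib.MP_b1acb3_co.Cyc
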