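import Pool.Agent.Lib.MP_b1acb3_co.Cyc.Embed

/-!
Number of vertices and edges of a union of ears.
-/

namespace Pool.Agent.Lib.MP_b1acb3_co.Cyc

open Finset

section

variable {V : Type} [Fintype V] {G : SimpleGraph V} {W W₀ : Finset V} {q k : ℕ}
  {m : Fin q → ℕ} {P : Fin q → ℕ → V}

theorem ears_mem (hP : Ears G W W₀ q k m P) (i : Fin q) (j : ℕ) (hj : j ≤ m i + 1) :
    P i j ∈ W := by
  rcases Nat.eq_zero_or_pos j with rfl | hj0
  · exact hP.sub (hP.start i)
  · rcases Nat.lt_or_ge j (m i + 1) with h | h
    · exact (hP.inner i j hj0 (by omega)).1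
    · have : j = m i + 1 := by omega
      rw [this]
      exact hP.sub (hP.stop i)

/-- Position of a vertex outside `W₀` on an ear. -/
theorem ears_pos (hP : Ears G W W₀ q k m P) (i : Fin q) (j : ℕ) (hj : j ≤ m i + 1)
    (h : P i j ∉ W₀) : 1 ≤ j ∧ j ≤ m i := by
  constructor
  · by_contra hc
    have : j = 0 := by omega
    rw [this] at h
    exact h (hP.start i)
  · by_contra hc
    have : j = m i + 1 := by omega
    rw [this] at h
    exact h (hP.stop i)

theorem ear_edge_inj (hk : 1 ≤ k) (hP : Ears G W W₀ q k m P) (i i' : Fin q) (j j' : ℕ)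
    (hj : j ≤ m i) (hj' : j' ≤ m i') (h : s(P i j, P i (j + 1)) = s(P i' j', P i' (j' + 1))) :
    i = i' ∧ j = j' := by
  have hmi := hP.long i
  have hmi' := hP.long i'
  rw [Sym2.eq_iff] at h
  rcases Nat.eq_zero_or_pos j with rfl | hj0
  · -- the inner vertex is `P i 1`
    have hin := (hP.inner i 1 le_rfl (by omega)).2
    rcases h with ⟨_, h2⟩ | ⟨h1, h2⟩
    · rw [zero_add] at h2
      rw [h2] at hin
      have hpos := ears_pos hP i' (j' + 1) (by omega) hin
      obtain ⟨h3, h4⟩ := hP.inj i 1 i' (j' + 1) le_rfl (by omega) hpos.1 hpos.2 h2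
      exact ⟨h3, by omega⟩
    · exfalso
      rw [zero_add] at h2
      rw [h2] at hin
      have hpos := ears_pos hP i' j' (by omega) hin
      obtain ⟨h3, h4⟩ := hP.inj i 1 i' j' le_rfl (by omega) hpos.1 hpos.2 h2
      subst h3
      subst h4
      exact hP.ne i 1 le_rfl (by omega) h1
  · have hin := (hP.inner i j hj0 hj).2
    rcases h with ⟨h1, _⟩ | ⟨h1, h2⟩
    · rw [h1] at hin
      have hpos := ears_pos hP i' j' (by omega) hin
      exact hP.inj i j i' j' hj0 hj hpos.1 hpos.2 h1
    · exfalso
      rw [h1] at hin
      have hpos := ears_pos hP i' (j' + 1) (by omega) hin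
      obtain ⟨h3, h4⟩ := hP.inj i j i' (j' + 1) hj0 hj hpos.1 hpos.2 h1
      subst h3
      subst h4
      exact hP.ne i (j' + 1) hj0 hj (by rw [Nat.add_sub_cancel]; exact h2.symm)

end

theorem count_ears : StCount := by
  classical
  intro V _ G W W₀ q k m P hk hP
  constructor
  · set E : Finset (Sym2 V) := (univ : Finset (Σ i : Fin q, Fin (m i + 1))).image
      (fun p => s(P p.1 p.2, P p.1 (p.2 + 1))) with hE
    have hEcard : E.card = ∑ i, (m i + 1) := by
      rw [hE, card_image_of_injective]
      · rw [card_univ, Fintype.card_sigma]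
        simp
      · rintro ⟨i, j⟩ ⟨i', j'⟩ h
        obtain ⟨h1, h2⟩ := ear_edge_inj hk hP i i' j j' (by have := j.isLt; omega)
          (by have := j'.isLt; omega) h
        subst h1
        have : j = j' := Fin.ext h2
        rw [this]
    have hdisj : Disjoint (edgesIn G W₀) E := by
      rw [Finset.disjoint_left]
      intro e he he'
      rw [hE, mem_image] at he'
      obtain ⟨⟨i, j⟩, _, rfl⟩ := he'
      rw [mem_edgesIn] at he
      simp only at he
      have hmi := hP.long i
      rcases Nat.eq_zero_or_pos (j : ℕ) with h0 | h0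
      · have h1 := he.2 (P i (j + 1)) (Sym2.mem_mk_right _ _)
        exact (hP.inner i (j + 1) (by omega) (by omega)).2 h1
      · have h1 := he.2 (P i j) (Sym2.mem_mk_left _ _)
        exact (hP.inner i j h0 (by have := j.isLt; omega)).2 h1
    have hunion : edgesIn G W = edgesIn G W₀ ∪ E := by
      ext e
      rw [mem_union]
      constructor
      · intro he
        rcases edge_cases G W W₀ q k m P hP e he with h | ⟨i, j, hj, rfl⟩
        · exact Or.inl h
        · right
          rw [hE, mem_image]
          exact ⟨⟨i, ⟨j, by omega⟩⟩, mem_univ _, rfl⟩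
      · rintro (h | h)
        · rw [mem_edgesIn] at h ⊢
          exact ⟨h.1, fun x hx => hP.sub (h.2 x hx)⟩
        · rw [hE, mem_image] at h
          obtain ⟨⟨i, j⟩, _, rfl⟩ := h
          rw [mem_edgesIn]
          have hjlt := j.isLt
          refine ⟨hP.adj i j (by omega), ?_⟩
          intro x hx
          rw [Sym2.mem_iff] at hx
          rcases hx with rfl | rfl
          · exact ears_mem hP i j (by omega)
          · exact ears_mem hP i (j + 1) (by omega)
    rw [← card_edgesIn, hunion, card_union_of_disjoint hdisj, card_edgesIn, hEcard]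
  · set T : Finset V := (univ : Finset (Σ i : Fin q, Fin (m i))).image
      (fun p => P p.1 (p.2 + 1)) with hT
    have hTcard : T.card = ∑ i, m i := by
      rw [hT, card_image_of_injective]
      · rw [card_univ, Fintype.card_sigma]
        simp
      · rintro ⟨i, j⟩ ⟨i', j'⟩ h
        simp only at h
        have hj := j.isLt
        have hj' := j'.isLt
        obtain ⟨h1, h2⟩ := hP.inj i (j + 1) i' (j' + 1) (by omega) (by omega) (by omega)
          (by omega) h
        subst h1
        have : j = j' := Fin.ext (by omega)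
        rw [this]
    have hdisj : Disjoint W₀ T := by
      rw [Finset.disjoint_left]
      intro v hv hv'
      rw [hT, mem_image] at hv'
      obtain ⟨⟨i, j⟩, _, rfl⟩ := hv'
      have hj := j.isLt
      exact (hP.inner i (j + 1) (by omega) (by omega)).2 hv
    have hunion : W = W₀ ∪ T := by
      ext v
      rw [mem_union]
      constructor
      · intro hv
        by_cases h : v ∈ W₀
        · exact Or.inl h
        · right
          obtain ⟨i, j, hj1, hj2, rfl⟩ := hP.cover v hv h
          rw [hT, mem_image]
          exact ⟨⟨i, ⟨j - 1, by omega⟩⟩, mem_univ _, by simp [Nat.sub_add_cancel hj1]⟩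
      · rintro (h | h)
        · exact hP.sub h
        · rw [hT, mem_image] at h
          obtain ⟨⟨i, j⟩, _, rfl⟩ := h
          have hj := j.isLt
          exact (hP.inner i (j + 1) (by omega) (by omega)).1
    rw [hunion, card_union_of_disjoint hdisj, hTcard]

end Pool.Agent.Lib.MP_b1acb3_co.Cyc
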