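import Pool.Agent.Lib.MP_b1acb3_co.Cyc.Stmts

/-!
(C7) Ear decomposition.
-/

namespace Pool.Agent.Lib.MP_b1acb3_co.Cyc

open Finset

/-- One ear. -/
theorem ear_exists {V : Type} [Fintype V] (G : SimpleGraph V) (W W₀ U : Finset V)
    (hU : ∀ v ∈ U, v ∈ W ∧ v ∉ W₀)
    (hclosed : ∀ v ∈ U, ∀ u ∈ W, u ∉ W₀ → G.Adj v u → u ∈ U)
    (hdeg : ∀ v ∈ U, {u | u ∈ W ∧ G.Adj v u}.ncard = 2)
    (x w : V) (hx : x ∈ U) (hw : w ∈ W₀) (hwW : w ∈ W) (hwx : G.Adj w x) :
    ∃ (t : ℕ) (p : ℕ → V), 1 ≤ t ∧ p 0 ∈ W₀ ∧ p 1 = x ∧ p (t + 1) ∈ W₀ ∧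
      (∀ j, 1 ≤ j → j ≤ t → p j ∈ U) ∧
      (∀ j j', 1 ≤ j → j ≤ t → 1 ≤ j' → j' ≤ t → p j = p j' → j = j') ∧
      (∀ j, j ≤ t → G.Adj (p j) (p (j + 1))) ∧
      (∀ j u, 1 ≤ j → j ≤ t → u ∈ W → G.Adj (p j) u → u = p (j - 1) ∨ u = p (j + 1)) ∧
      (∀ j, 1 ≤ j → j ≤ t → p (j - 1) ≠ p (j + 1)) := by
  classical
  let nx : V → V → V := fun a v =>
    if h : ∃ u, u ∈ W ∧ G.Adj v u ∧ u ≠ a then h.choose else a
  have hnx : ∀ a v, v ∈ U → a ∈ W → G.Adj v a → nx a v ∈ W ∧ G.Adj v (nx a v) ∧ nx a v ≠ a ∧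
      ∀ u ∈ W, G.Adj v u → u = a ∨ u = nx a v := by
    intro a v hv ha hva
    obtain ⟨c, d, hcd, hset⟩ := Set.ncard_eq_two.1 (hdeg v hv)
    have hmem : ∀ u, (u ∈ W ∧ G.Adj v u) ↔ (u = c ∨ u = d) := by
      intro u
      have : u ∈ {u | u ∈ W ∧ G.Adj v u} ↔ u ∈ ({c, d} : Set V) := by rw [hset]
      exact this
    have hex : ∃ u, u ∈ W ∧ G.Adj v u ∧ u ≠ a := by
      rcases (hmem a).1 ⟨ha, hva⟩ with h | h
      · have hd := (hmem d).2 (Or.inr rfl)
        exact ⟨d, hd.1, hd.2, fun h' => hcd (by rw [← h, ← h'])⟩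
      · have hc := (hmem c).2 (Or.inl rfl)
        exact ⟨c, hc.1, hc.2, fun h' => hcd (by rw [← h, ← h'])⟩
    have hval : nx a v = hex.choose := dif_pos hex
    obtain ⟨h1, h2, h3⟩ := hex.choose_spec
    rw [← hval] at h1 h2 h3
    refine ⟨h1, h2, h3, ?_⟩
    intro u hu hvu
    have e1 := (hmem a).1 ⟨ha, hva⟩
    have e2 := (hmem (nx a v)).1 ⟨h1, h2⟩
    have e3 := (hmem u).1 ⟨hu, hvu⟩
    rcases e1 with e1 | e1 <;> rcases e2 with e2 | e2 <;> rcases e3 with e3 | e3
    · left; rw [e3, e1]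
    · exact absurd (e2.trans e1.symm) h3
    · left; rw [e3, e1]
    · right; rw [e3, e2]
    · right; rw [e3, e2]
    · left; rw [e3, e1]
    · exact absurd (e2.trans e1.symm) h3
    · left; rw [e3, e1]
  let pr : ℕ → V × V := fun n => Nat.rec (w, x) (fun _ q => (q.2, nx q.1 q.2)) n
  let p : ℕ → V := fun n => (pr n).1
  have hp0 : p 0 = w := rfl
  have hp1 : p 1 = x := rfl
  have hp2 : ∀ n, p (n + 2) = nx (p n) (p (n + 1)) := fun n => rfl
  have hA : ∀ n, (∀ j, 1 ≤ j → j ≤ n → p j ∈ U) →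
      p n ∈ W ∧ p (n + 1) ∈ W ∧ G.Adj (p n) (p (n + 1)) := by
    intro n
    induction n with
    | zero =>
      intro _
      exact ⟨hwW, (hU x hx).1, hwx⟩
    | succ n ih =>
      intro hg
      obtain ⟨h1, h2, h3⟩ := ih fun j hj1 hj2 => hg j hj1 (by omega)
      have hU1 := hg (n + 1) (by omega) le_rfl
      obtain ⟨k1, k2, k3, k4⟩ := hnx (p n) (p (n + 1)) hU1 h1 h3.symm
      rw [← hp2] at k1 k2
      exact ⟨h2, k1, k2⟩
  have hB : ∀ n, (∀ j, 1 ≤ j → j ≤ n + 1 → p j ∈ U) → p n ≠ p (n + 2) ∧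
      ∀ u ∈ W, G.Adj (p (n + 1)) u → u = p n ∨ u = p (n + 2) := by
    intro n hg
    obtain ⟨h1, h2, h3⟩ := hA n fun j hj1 hj2 => hg j hj1 (by omega)
    have hU1 := hg (n + 1) (by omega) le_rfl
    obtain ⟨k1, k2, k3, k4⟩ := hnx (p n) (p (n + 1)) hU1 h1 h3.symm
    rw [← hp2] at k3 k4
    exact ⟨fun h => k3 h.symm, k4⟩
  have hC : ∀ j, (∀ i, 1 ≤ i → i ≤ j → p i ∈ U) → ∀ i, 1 ≤ i → i < j → p i ≠ p j := by
    intro j
    induction j using Nat.strong_induction_on with
    | _ j ih =>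
      intro hg i hi1 hij heq
      obtain ⟨j', rfl⟩ : ∃ j', j = j' + 1 := ⟨j - 1, by omega⟩
      obtain ⟨i', rfl⟩ : ∃ i', i = i' + 1 := ⟨i - 1, by omega⟩
      obtain ⟨h1, h2, h3⟩ := hA j' fun i hi1 hi2 => hg i hi1 (by omega)
      have hjU : p j' ∈ U := hg j' (by omega) (by omega)
      have hadj : G.Adj (p (i' + 1)) (p j') := by rw [heq]; exact h3.symm
      obtain ⟨hne, honly⟩ := hB i' fun i hi1 hi2 => hg i hi1 (by omega)
      rcases honly _ h1 hadj with h | h
      · rcases Nat.eq_zero_or_pos i' with h0 | h0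
        · rw [h0, hp0] at h
          exact (hU _ hjU).2 (by rw [h]; exact hw)
        · exact ih j' (by omega) (fun i hi1 hi2 => hg i hi1 (by omega)) i' h0 (by omega) h.symm
      · rcases lt_trichotomy (i' + 2) j' with hlt | heq' | hgt
        · exact ih j' (by omega) (fun i hi1 hi2 => hg i hi1 (by omega)) (i' + 2) (by omega) hlt
            h.symm
        · have := (hB (i' + 1) fun i hi1 hi2 => hg i hi1 (by omega)).1
          apply this
          rw [heq, show i' + 1 + 2 = j' + 1 by omega]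
        · have hij' : i' + 1 = j' := by omega
          rw [hij'] at heq
          rw [← heq] at h3
          exact G.loopless.irrefl _ h3
  have hD : ∃ n, ¬ ∀ j, 1 ≤ j → j ≤ n → p j ∈ U := by
    by_contra hcon
    push Not at hcon
    have hinj : Function.Injective fun n : ℕ => p (n + 1) := by
      intro a b hab
      have hab' : p (a + 1) = p (b + 1) := hab
      rcases lt_trichotomy a b with h | h | h
      · exact absurd hab' (hC (b + 1) (fun i h1 h2 => hcon (b + 1) i h1 h2) (a + 1) (by omega)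
          (by omega))
      · exact h
      · exact absurd hab'.symm (hC (a + 1) (fun i h1 h2 => hcon (a + 1) i h1 h2) (b + 1) (by omega)
          (by omega))
    exact not_injective_infinite_finite _ hinj
  obtain ⟨t, ht1, ht2⟩ : ∃ t, (∀ j, 1 ≤ j → j ≤ t → p j ∈ U) ∧
      ¬ ∀ j, 1 ≤ j → j ≤ t + 1 → p j ∈ U := by
    by_contra hcon
    push Not at hcon
    obtain ⟨n, hn⟩ := hD
    apply hn
    clear hn
    induction n with
    | zero => intro j h1 h2; omega
    | succ n ih => exact fun j h1 h2 => hcon n ih j h1 h2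
  have ht0 : 1 ≤ t := by
    by_contra h
    have h0 : t = 0 := by omega
    apply ht2
    intro j h1 h2
    have : j = 1 := by omega
    rw [this, hp1]
    exact hx
  have hlast : p (t + 1) ∉ U := by
    intro h
    apply ht2
    intro j h1 h2
    rcases Nat.lt_or_ge t j with h3 | h3
    · have : j = t + 1 := by omega
      rw [this]; exact h
    · exact ht1 j h1 h3
  obtain ⟨a1, a2, a3⟩ := hA t ht1
  refine ⟨t, p, ht0, by rw [hp0]; exact hw, hp1, ?_, ht1, ?_, ?_, ?_, ?_⟩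
  · by_contra h
    exact hlast (hclosed _ (ht1 t ht0 le_rfl) _ a2 h a3)
  · intro j j' h1 h2 h3 h4 heq
    rcases lt_trichotomy j j' with h | h | h
    · exact absurd heq (hC j' (fun i k1 k2 => ht1 i k1 (by omega)) j h1 h)
    · exact h
    · exact absurd heq.symm (hC j (fun i k1 k2 => ht1 i k1 (by omega)) j' h3 h)
  · intro j hj
    exact (hA j fun i k1 k2 => ht1 i k1 (by omega)).2.2
  · intro j u h1 h2 hu hadj
    obtain ⟨j', rfl⟩ : ∃ j', j = j' + 1 := ⟨j - 1, by omega⟩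
    rw [Nat.add_sub_cancel]
    exact (hB j' fun i k1 k2 => ht1 i k1 (by omega)).2 u hu hadj
  · intro j h1 h2
    obtain ⟨j', rfl⟩ : ∃ j', j = j' + 1 := ⟨j - 1, by omega⟩
    rw [Nat.add_sub_cancel]
    exact (hB j' fun i k1 k2 => ht1 i k1 (by omega)).1

/-- Families of ears covering exactly the set `U`. -/
structure EarsOn {V : Type} (G : SimpleGraph V) (W W₀ U : Finset V) (q : ℕ) (m : Fin q → ℕ)
    (P : Fin q → ℕ → V) : Prop where
  long : ∀ i, 1 ≤ m i
  start : ∀ i, P i 0 ∈ W₀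
  stop : ∀ i, P i (m i + 1) ∈ W₀
  inner : ∀ i j, 1 ≤ j → j ≤ m i → P i j ∈ U
  inj : ∀ i j i' j', 1 ≤ j → j ≤ m i → 1 ≤ j' → j' ≤ m i' → P i j = P i' j' → i = i' ∧ j = j'
  cover : ∀ v ∈ U, ∃ i j, 1 ≤ j ∧ j ≤ m i ∧ P i j = v
  adj : ∀ i j, j ≤ m i → G.Adj (P i j) (P i (j + 1))
  only : ∀ i j u, 1 ≤ j → j ≤ m i → u ∈ W → G.Adj (P i j) u → u = P i (j - 1) ∨ u = P i (j + 1)
  ne : ∀ i j, 1 ≤ j → j ≤ m i → P i (j - 1) ≠ P i (j + 1)

theorem ears_on {V : Type} [Fintype V] (G : SimpleGraph V) (W W₀ : Finset V) (hsub : W₀ ⊆ W)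
    (hdeg : ∀ v ∈ W, v ∉ W₀ → {u | u ∈ W ∧ G.Adj v u}.ncard = 2) (hF : ForestOutside G W W₀) :
    ∀ (n : ℕ) (U : Finset V), U.card = n → (∀ v ∈ U, v ∈ W ∧ v ∉ W₀) →
      (∀ v ∈ U, ∀ u ∈ W, u ∉ W₀ → G.Adj v u → u ∈ U) →
      ∃ (q : ℕ) (m : Fin q → ℕ) (P : Fin q → ℕ → V), EarsOn G W W₀ U q m P := by
  classical
  intro n
  induction n using Nat.strong_induction_on with
  | _ n ih =>
    intro U hn hU hclosed
    rcases U.eq_empty_or_nonempty with hUe | hUne
    · refine ⟨0, Fin.elim0, Fin.elim0, ?_⟩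
      refine ⟨fun i => i.elim0, fun i => i.elim0, fun i => i.elim0, fun i => i.elim0,
        fun i => i.elim0, ?_, fun i => i.elim0, fun i => i.elim0, fun i => i.elim0⟩
      intro v hv
      rw [hUe] at hv
      exact absurd hv (Finset.notMem_empty v)
    · obtain ⟨x, hxU, hx1⟩ := hF U hUne (fun v hv => (hU v hv).1)
        (Finset.disjoint_left.2 fun v hv => (hU v hv).2)
      -- a neighbour in `W₀`
      have hex : ∃ w ∈ W₀, w ∈ W ∧ G.Adj x w := by
        by_contra hcon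
        push Not at hcon
        have h2 := hdeg x (hU x hxU).1 (hU x hxU).2
        have hsub' : {u | u ∈ W ∧ G.Adj x u} ⊆ {y | y ∈ U ∧ G.Adj x y} := by
          rintro u ⟨hu, hxu⟩
          refine ⟨hclosed x hxU u hu ?_ hxu, hxu⟩
          intro hu0
          exact hcon u hu0 hu hxu
        have := Set.ncard_le_ncard hsub' (Set.toFinite _)
        omega
      obtain ⟨w, hw0, hwW, hxw⟩ := hex
      obtain ⟨t, p, ht, h0, h1, hstop, hin, hinj, hadj, honly, hne⟩ :=
        ear_exists G W W₀ U hU hclosed (fun v hv => hdeg v (hU v hv).1 (hU v hv).2) x w hxU hw0 hwW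
          hxw.symm
      set T : Finset V := (Finset.Icc 1 t).image p with hT
      have hTmem : ∀ v, v ∈ T ↔ ∃ j, 1 ≤ j ∧ j ≤ t ∧ p j = v := by
        intro v
        rw [hT, Finset.mem_image]
        constructor
        · rintro ⟨j, hj, rfl⟩
          rw [Finset.mem_Icc] at hj
          exact ⟨j, hj.1, hj.2, rfl⟩
        · rintro ⟨j, hj1, hj2, rfl⟩
          exact ⟨j, Finset.mem_Icc.2 ⟨hj1, hj2⟩, rfl⟩
      have hxT : x ∈ T := (hTmem x).2 ⟨1, le_rfl, ht, h1⟩
      obtain ⟨q, m, P, hE⟩ := ih (U \ T).card (by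
          rw [← hn]
          apply Finset.card_lt_card
          rw [Finset.ssubset_iff_of_subset Finset.sdiff_subset]
          exact ⟨x, hxU, fun h => (Finset.mem_sdiff.1 h).2 hxT⟩) (U \ T) rfl
        (fun v hv => hU v (Finset.mem_sdiff.1 hv).1) (by
          intro v hv u hu hu0 hvu
          obtain ⟨hvU, hvT⟩ := Finset.mem_sdiff.1 hv
          refine Finset.mem_sdiff.2 ⟨hclosed v hvU u hu hu0 hvu, ?_⟩
          intro huT
          obtain ⟨j, hj1, hj2, rfl⟩ := (hTmem u).1 huT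
          rcases honly j v hj1 hj2 (hU v hvU).1 hvu.symm with h | h
          · rcases Nat.eq_zero_or_pos (j - 1) with h' | h'
            · rw [h', ] at h
              exact (hU v hvU).2 (by rw [h]; exact h0)
            · exact hvT ((hTmem v).2 ⟨j - 1, h', by omega, h.symm⟩)
          · rcases Nat.lt_or_ge t (j + 1) with h' | h'
            · have : j + 1 = t + 1 := by omega
              rw [this] at h
              exact (hU v hvU).2 (by rw [h]; exact hstop)
            · exact hvT ((hTmem v).2 ⟨j + 1, by omega, h', h.symm⟩))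
      have hmix : ∀ (i : Fin q) (j j' : ℕ), 1 ≤ j → j ≤ m i → 1 ≤ j' → j' ≤ t → P i j ≠ p j' := by
        intro i j j' a1 a2 a3 a4 heq
        have := (Finset.mem_sdiff.1 (hE.inner i j a1 a2)).2
        exact this ((hTmem _).2 ⟨j', a3, a4, heq.symm⟩)
      refine ⟨q + 1, Fin.cons t m, Fin.cons p P, ?_⟩
      constructor
      · intro i
        refine Fin.cases ?_ (fun i => ?_) i
        · exact ht
        · exact hE.long i
      · intro i
        refine Fin.cases ?_ (fun i => ?_) i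
        · exact h0
        · exact hE.start i
      · intro i
        refine Fin.cases ?_ (fun i => ?_) i
        · exact hstop
        · exact hE.stop i
      · intro i
        refine Fin.cases ?_ (fun i => ?_) i
        · exact hin
        · intro j a1 a2
          exact (Finset.mem_sdiff.1 (hE.inner i j a1 a2)).1
      · intro i j i' j'
        refine Fin.cases ?_ (fun i => ?_) i
        · refine Fin.cases ?_ (fun i' => ?_) i'
          · intro a1 a2 a3 a4 heq
            exact ⟨rfl, hinj j j' a1 a2 a3 a4 heq⟩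
          · intro a1 a2 a3 a4 heq
            exact absurd heq.symm (hmix i' j' j a3 a4 a1 a2)
        · refine Fin.cases ?_ (fun i' => ?_) i'
          · intro a1 a2 a3 a4 heq
            exact absurd heq (hmix i j j' a1 a2 a3 a4)
          · intro a1 a2 a3 a4 heq
            obtain ⟨b1, b2⟩ := hE.inj i j i' j' a1 a2 a3 a4 heq
            exact ⟨by rw [b1], b2⟩
      · intro v hv
        by_cases hvT : v ∈ T
        · obtain ⟨j, hj1, hj2, hj⟩ := (hTmem v).1 hvT
          exact ⟨0, j, hj1, hj2, hj⟩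
        · obtain ⟨i, j, hj1, hj2, hj⟩ := hE.cover v (Finset.mem_sdiff.2 ⟨hv, hvT⟩)
          exact ⟨i.succ, j, hj1, hj2, hj⟩
      · intro i
        refine Fin.cases ?_ (fun i => ?_) i
        · exact hadj
        · exact hE.adj i
      · intro i
        refine Fin.cases ?_ (fun i => ?_) i
        · exact honly
        · exact hE.only i
      · intro i
        refine Fin.cases ?_ (fun i => ?_) i
        · exact hne
        · exact hE.ne i

/-- (C7) Ear decomposition. -/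
theorem decomp : StDecomp := by
  classical
  intro V _ G W W₀ hsub hdeg hF
  obtain ⟨q, m, P, hE⟩ := ears_on G W W₀ hsub hdeg hF (W \ W₀).card (W \ W₀) rfl
    (fun v hv => Finset.mem_sdiff.1 hv)
    (fun v _ u hu hu0 _ => Finset.mem_sdiff.2 ⟨hu, hu0⟩)
  exact ⟨q, m, P, ⟨hsub, hE.long, hE.start, hE.stop,
    fun i j a1 a2 => Finset.mem_sdiff.1 (hE.inner i j a1 a2), hE.inj,
    fun v hv hv0 => hE.cover v (Finset.mem_sdiff.2 ⟨hv, hv0⟩), hE.adj, hE.only, hE.ne⟩⟩

end Pool.Agent.Lib.MP_b1acb3_co.Cyc
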