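import Pool.Agent.Lib.MP_b1acb3_co.Deg2
import Pool.Agent.Lib.MP_b1acb3_co.Even

/-!
Definitions for the theorem on graphs of bounded cyclomatic number (problem MP_b1acb3_co).
-/

namespace Pool.Agent.Lib.MP_b1acb3_co.Cyc

open Finset

/-- Kernels `B k` (one for each colour), symmetric, nonnegative, with all row sums exactly `n / K`
and with sum the all-one matrix. -/
structure Exact {n K : ℕ} (B : Fin K → Matrix (Fin n) (Fin n) ℝ) : Prop where
  nonneg : ∀ k i j, 0 ≤ B k i j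
  symm : ∀ k i j, B k i j = B k j i
  row : ∀ k i, ∑ j, B k i j = (n : ℝ) / K
  tot : ∀ i j, ∑ k, B k i j = 1

/-- The normalised kernels, with row sums `1`. -/
noncomputable def nrm {n K : ℕ} (B : Fin K → Matrix (Fin n) (Fin n) ℝ) (k : Fin K) :
    Matrix (Fin n) (Fin n) ℝ := ((K : ℝ) / n) • B k

/-- The kernel of a word of colours. -/
noncomputable def wker {n K : ℕ} (B : Fin K → Matrix (Fin n) (Fin n) ℝ) (w : List (Fin K)) :
    Matrix (Fin n) (Fin n) ℝ := (w.map (nrm B)).prod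

/-- The word `σ 0, σ 1, …, σ (k-1)` with the letters at the positions in `D` deleted. -/
def del {K k : ℕ} (σ : Fin k → Fin K) (D : Finset (Fin k)) : List (Fin K) :=
  ((List.finRange k).filter (fun i => i ∉ D)).map σ

/-- The part `G[W]` consists of `G[W₀]` and of `q` ears, i.e. paths (possibly closed)
`P i 0, P i 1, …, P i (m i + 1)` with both end vertices in `W₀`, whose `m i ≥ k` inner vertices
are distinct, lie outside `W₀`, are not shared by two ears, and have exactly their two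
neighbours on the path as neighbours in `W`. -/
structure Ears {V : Type} (G : SimpleGraph V) (W W₀ : Finset V) (q k : ℕ) (m : Fin q → ℕ)
    (P : Fin q → ℕ → V) : Prop where
  sub : W₀ ⊆ W
  long : ∀ i, k ≤ m i
  start : ∀ i, P i 0 ∈ W₀
  stop : ∀ i, P i (m i + 1) ∈ W₀
  inner : ∀ i j, 1 ≤ j → j ≤ m i → P i j ∈ W ∧ P i j ∉ W₀
  inj : ∀ i j i' j', 1 ≤ j → j ≤ m i → 1 ≤ j' → j' ≤ m i' → P i j = P i' j' → i = i' ∧ j = j'
  cover : ∀ v ∈ W, v ∉ W₀ → ∃ i j, 1 ≤ j ∧ j ≤ m i ∧ P i j = v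
  adj : ∀ i j, j ≤ m i → G.Adj (P i j) (P i (j + 1))
  only : ∀ i j u, 1 ≤ j → j ≤ m i → u ∈ W → G.Adj (P i j) u → u = P i (j - 1) ∨ u = P i (j + 1)
  ne : ∀ i j, 1 ≤ j → j ≤ m i → P i (j - 1) ≠ P i (j + 1)

/-- Every nonempty set of vertices of `W \ W₀` has a vertex with at most one neighbour in the
set: `G[W \ W₀]` is a forest. -/
def ForestOutside {V : Type} (G : SimpleGraph V) (W W₀ : Finset V) : Prop :=
  ∀ X : Finset V, X.Nonempty → X ⊆ W → Disjoint X W₀ →
    ∃ x ∈ X, {y | y ∈ X ∧ G.Adj x y}.ncard ≤ 1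

end Pool.Agent.Lib.MP_b1acb3_co.Cyc
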