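import Pool.Agent.Lib.MP_b1acb3_co.Cyc.Stmts

/-!
Module C2: the ear lemma (random words with `d` deleted letters).
-/

namespace Pool.Agent.Lib.MP_b1acb3_co.Cyc

open Finset

namespace Ear

/-- the matrix with all entries `1 / n`. -/
noncomputable def JJ (n : ℕ) : Matrix (Fin n) (Fin n) ℝ := fun _ _ => 1 / (n : ℝ)

/-- the centred kernels. -/
noncomputable def TT {n K : ℕ} (B : Fin K → Matrix (Fin n) (Fin n) ℝ) (k : Fin K) :
    Matrix (Fin n) (Fin n) ℝ := nrm B k - JJ n

/-- the centred kernel of a word. -/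
noncomputable def tw {n K : ℕ} (B : Fin K → Matrix (Fin n) (Fin n) ℝ) (w : List (Fin K)) :
    Matrix (Fin n) (Fin n) ℝ := (w.map (TT B)).prod

section basic

variable {n K : ℕ} {B : Fin K → Matrix (Fin n) (Fin n) ℝ}

lemma JJ_sq (hn : 0 < n) : JJ n * JJ n = JJ n := by
  ext i j
  have hn' : (n : ℝ) ≠ 0 := by positivity
  simp only [Matrix.mul_apply, JJ, Finset.sum_const, Finset.card_univ, Fintype.card_fin,
    nsmul_eq_mul]
  field_simp

lemma nrm_row (hB : Exact B) (hK : 0 < K) (hn : 0 < n) (a : Fin K) (i : Fin n) :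
    ∑ j, nrm B a i j = 1 := by
  have hn' : (n : ℝ) ≠ 0 := by positivity
  have hK' : (K : ℝ) ≠ 0 := by positivity
  simp only [nrm, Matrix.smul_apply, smul_eq_mul, ← Finset.mul_sum, hB.row a i]
  field_simp

lemma nrm_symm (hB : Exact B) (a : Fin K) (i j : Fin n) : nrm B a i j = nrm B a j i := by
  simp only [nrm, Matrix.smul_apply, smul_eq_mul, hB.symm a i j]

lemma nrm_col (hB : Exact B) (hK : 0 < K) (hn : 0 < n) (a : Fin K) (j : Fin n) :
    ∑ i, nrm B a i j = 1 := by
  rw [← nrm_row hB hK hn a j]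
  exact Finset.sum_congr rfl fun i _ => nrm_symm hB a i j

lemma nrm_nonneg (hB : Exact B) (a : Fin K) (i j : Fin n) : 0 ≤ nrm B a i j := by
  simp only [nrm, Matrix.smul_apply, smul_eq_mul]
  exact mul_nonneg (by positivity) (hB.nonneg a i j)

lemma nrm_le (hB : Exact B) (a : Fin K) (i j : Fin n) : nrm B a i j ≤ (K : ℝ) / n := by
  simp only [nrm, Matrix.smul_apply, smul_eq_mul]
  have h1 : B a i j ≤ 1 := by
    rw [← hB.tot i j]
    exact Finset.single_le_sum (f := fun k => B k i j) (fun k _ => hB.nonneg k i j)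
      (Finset.mem_univ a)
  have : (0 : ℝ) ≤ (K : ℝ) / n := by positivity
  nlinarith

lemma nrm_mul_JJ (hB : Exact B) (hK : 0 < K) (hn : 0 < n) (a : Fin K) :
    nrm B a * JJ n = JJ n := by
  ext i j
  simp only [Matrix.mul_apply, JJ, ← Finset.sum_mul, nrm_row hB hK hn a i, one_mul]

lemma JJ_mul_nrm (hB : Exact B) (hK : 0 < K) (hn : 0 < n) (a : Fin K) :
    JJ n * nrm B a = JJ n := by
  ext i j
  simp only [Matrix.mul_apply, JJ, ← Finset.mul_sum, nrm_col hB hK hn a j, mul_one]

lemma wker_nil : wker B [] = 1 := rfl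

lemma wker_cons (a : Fin K) (w : List (Fin K)) : wker B (a :: w) = nrm B a * wker B w := by
  simp [wker]

lemma wker_append (v w : List (Fin K)) : wker B (v ++ w) = wker B v * wker B w := by
  simp [wker]

lemma tw_cons (a : Fin K) (w : List (Fin K)) : tw B (a :: w) = TT B a * tw B w := by
  simp [tw]

lemma tw_append (v w : List (Fin K)) : tw B (v ++ w) = tw B v * tw B w := by
  simp [tw]

lemma wker_mul_JJ (hB : Exact B) (hK : 0 < K) (hn : 0 < n) (w : List (Fin K)) :
    wker B w * JJ n = JJ n := by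
  induction w with
  | nil => rw [wker_nil, Matrix.one_mul]
  | cons a w ih => rw [wker_cons, Matrix.mul_assoc, ih, nrm_mul_JJ hB hK hn]

lemma JJ_mul_wker (hB : Exact B) (hK : 0 < K) (hn : 0 < n) (w : List (Fin K)) :
    JJ n * wker B w = JJ n := by
  induction w with
  | nil => rw [wker_nil, Matrix.mul_one]
  | cons a w ih => rw [wker_cons, ← Matrix.mul_assoc, JJ_mul_nrm hB hK hn, ih]

lemma tw_eq (hB : Exact B) (hK : 0 < K) (hn : 0 < n) (w : List (Fin K)) (hw : w ≠ []) :
    tw B w = wker B w - JJ n := by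
  induction w with
  | nil => exact absurd rfl hw
  | cons a w ih =>
    by_cases h : w = []
    · subst h
      simp [tw, wker, TT]
    · rw [tw_cons, ih h, TT, wker_cons, Matrix.sub_mul, Matrix.mul_sub, Matrix.mul_sub,
        nrm_mul_JJ hB hK hn, JJ_mul_wker hB hK hn, JJ_sq hn]
      abel

lemma wker_row (hB : Exact B) (hK : 0 < K) (hn : 0 < n) (w : List (Fin K)) (i : Fin n) :
    ∑ j, wker B w i j = 1 := by
  have h := congrFun (congrFun (wker_mul_JJ hB hK hn w) i) i
  have hn' : (n : ℝ) ≠ 0 := by positivity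
  simp only [Matrix.mul_apply, JJ, ← Finset.sum_mul] at h
  field_simp at h
  exact h

lemma wker_col (hB : Exact B) (hK : 0 < K) (hn : 0 < n) (w : List (Fin K)) (j : Fin n) :
    ∑ i, wker B w i j = 1 := by
  have h := congrFun (congrFun (JJ_mul_wker hB hK hn w) j) j
  have hn' : (n : ℝ) ≠ 0 := by positivity
  simp only [Matrix.mul_apply, JJ, ← Finset.mul_sum] at h
  field_simp at h
  exact h

lemma wker_nonneg (hB : Exact B) (w : List (Fin K)) (i j : Fin n) : 0 ≤ wker B w i j := by
  induction w generalizing i j with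
  | nil =>
    rw [wker_nil, Matrix.one_apply]
    split_ifs <;> norm_num
  | cons a w ih =>
    rw [wker_cons, Matrix.mul_apply]
    exact Finset.sum_nonneg fun z _ => mul_nonneg (nrm_nonneg hB a i z) (ih z j)

lemma wker_le (hB : Exact B) (hK : 0 < K) (hn : 0 < n) (w : List (Fin K)) (hw : w ≠ [])
    (i j : Fin n) : wker B w i j ≤ (K : ℝ) / n := by
  cases w with
  | nil => exact absurd rfl hw
  | cons a w =>
    rw [wker_cons, Matrix.mul_apply]
    calc ∑ z, nrm B a i z * wker B w z j ≤ ∑ z, (K : ℝ) / n * wker B w z j :=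
          Finset.sum_le_sum fun z _ =>
            mul_le_mul_of_nonneg_right (nrm_le hB a i z) (wker_nonneg hB w z j)
      _ = (K : ℝ) / n := by rw [← Finset.mul_sum, wker_col hB hK hn, mul_one]

lemma sq_aux {ι : Type*} (s : Finset ι) (n : ℕ) (hn : 0 < n) (hs : s.card = n) (K : ℝ)
    (f : ι → ℝ) (h0 : ∀ z ∈ s, 0 ≤ f z) (h1 : ∀ z ∈ s, f z ≤ K / n) (hsum : ∑ z ∈ s, f z = 1) :
    ∑ z ∈ s, (f z - 1 / (n : ℝ)) ^ 2 ≤ K / n := by
  have hn' : (0 : ℝ) < n := by positivity
  have e : ∑ z ∈ s, (f z - 1 / (n : ℝ)) ^ 2 = ∑ z ∈ s, f z ^ 2 - 1 / n := by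
    have : ∀ z ∈ s, (f z - 1 / (n : ℝ)) ^ 2 = f z ^ 2 - (2 / n) * f z + 1 / (n : ℝ) ^ 2 := by
      intro z _
      ring
    rw [Finset.sum_congr rfl this, Finset.sum_add_distrib, Finset.sum_sub_distrib,
      ← Finset.mul_sum, hsum, Finset.sum_const, hs, nsmul_eq_mul]
    field_simp
    ring
  rw [e]
  have h2 : ∑ z ∈ s, f z ^ 2 ≤ ∑ z ∈ s, K / n * f z := by
    apply Finset.sum_le_sum
    intro z hz
    rw [sq]
    exact mul_le_mul_of_nonneg_right (h1 z hz) (h0 z hz)
  rw [← Finset.mul_sum, hsum, mul_one] at h2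
  have : (0 : ℝ) < 1 / n := by positivity
  linarith

lemma tw_row_sq (hB : Exact B) (hK : 0 < K) (hn : 0 < n) (w : List (Fin K)) (hw : w ≠ [])
    (x : Fin n) : ∑ z, tw B w x z ^ 2 ≤ (K : ℝ) / n := by
  have := sq_aux (Finset.univ : Finset (Fin n)) n hn (by simp) (K : ℝ) (fun z => wker B w x z)
    (fun z _ => wker_nonneg hB w x z) (fun z _ => wker_le hB hK hn w hw x z)
    (wker_row hB hK hn w x)
  simpa only [tw_eq hB hK hn w hw, Matrix.sub_apply, JJ] using this

lemma tw_col_sq (hB : Exact B) (hK : 0 < K) (hn : 0 < n) (w : List (Fin K)) (hw : w ≠ [])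
    (y : Fin n) : ∑ z, tw B w z y ^ 2 ≤ (K : ℝ) / n := by
  have := sq_aux (Finset.univ : Finset (Fin n)) n hn (by simp) (K : ℝ) (fun z => wker B w z y)
    (fun z _ => wker_nonneg hB w z y) (fun z _ => wker_le hB hK hn w hw z y)
    (wker_col hB hK hn w y)
  simpa only [tw_eq hB hK hn w hw, Matrix.sub_apply, JJ] using this

lemma sum_TT (hB : Exact B) (hK : 0 < K) (hn : 0 < n) : ∑ a, TT B a = 0 := by
  ext i j
  have hn' : (n : ℝ) ≠ 0 := by positivity
  have hK' : (K : ℝ) ≠ 0 := by positivity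
  rw [Matrix.sum_apply]
  simp only [TT, nrm, JJ, Matrix.sub_apply, Matrix.smul_apply, smul_eq_mul,
    Finset.sum_sub_distrib, ← Finset.mul_sum, hB.tot i j, Finset.sum_const, Finset.card_univ,
    Fintype.card_fin, nsmul_eq_mul, Matrix.zero_apply]
  field_simp
  ring

lemma map_update_eq {k : ℕ} (σ : Fin k → Fin K) (p : Fin k) (a : Fin K) (l : List (Fin k))
    (hp : p ∉ l) : l.map (Function.update σ p a) = l.map σ := by
  apply List.map_congr_left
  intro i hi
  rw [Function.update_of_ne]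
  rintro rfl
  exact hp hi

lemma sum_update_zero (hB : Exact B) (hK : 0 < K) (hn : 0 < n) {k : ℕ} (σ : Fin k → Fin K)
    (p : Fin k) (l : List (Fin k)) (hl : l.Nodup) (hp : p ∈ l) :
    ∑ a, tw B (l.map (Function.update σ p a)) = 0 := by
  obtain ⟨s, t, rfl⟩ := List.append_of_mem hp
  have hnd := List.nodup_append.1 hl
  have hs : p ∉ s := fun h => hnd.2.2 p h p (by simp) rfl
  have ht : p ∉ t := (List.nodup_cons.1 hnd.2.1).1
  have : ∀ a, tw B ((s ++ p :: t).map (Function.update σ p a))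
      = tw B (s.map σ) * TT B a * tw B (t.map σ) := by
    intro a
    rw [List.map_append, List.map_cons, map_update_eq σ p a s hs, map_update_eq σ p a t ht,
      Function.update_self, tw_append, tw_cons, Matrix.mul_assoc]
  simp only [this]
  rw [← Finset.sum_mul, ← Finset.mul_sum, sum_TT hB hK hn, Matrix.mul_zero, Matrix.zero_mul]

lemma avg {k : ℕ} (p : Fin k) (F : (Fin k → Fin K) → ℝ) :
    ∑ σ : Fin k → Fin K, ∑ a, F (Function.update σ p a) = K * ∑ σ : Fin k → Fin K, F σ := by
  have inv : Function.Involutive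
      (fun q : (Fin k → Fin K) × Fin K => (Function.update q.1 p q.2, q.1 p)) := by
    rintro ⟨σ, a⟩
    simp
  rw [← Fintype.sum_prod_type' (f := fun (σ : Fin k → Fin K) (a : Fin K) =>
    F (Function.update σ p a))]
  have h := Equiv.sum_comp inv.toPerm (fun q : (Fin k → Fin K) × Fin K => F q.1)
  have h3 : ∑ q : (Fin k → Fin K) × Fin K, F q.1 = K * ∑ σ : Fin k → Fin K, F σ := by
    rw [Fintype.sum_prod_type]
    simp [Finset.mul_sum]
  rw [← h3, ← h]
  rfl

end basic

section main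

variable {n K : ℕ} {B : Fin K → Matrix (Fin n) (Fin n) ℝ}

lemma del_nodup {k : ℕ} (D : Finset (Fin k)) :
    ((List.finRange k).filter (fun i => i ∉ D)).Nodup :=
  (List.nodup_finRange k).filter _

lemma del_ne_nil {k d : ℕ} (hd : d < k) (σ : Fin k → Fin K) (D : Finset (Fin k))
    (hD : D.card = d) : del σ D ≠ [] := by
  intro h
  rw [del, List.map_eq_nil_iff, List.filter_eq_nil_iff] at h
  have : D = Finset.univ := by
    ext i
    have := h i (List.mem_finRange i)
    simpa using this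
  rw [this, Finset.card_univ, Fintype.card_fin] at hD
  omega

lemma orth (hB : Exact B) (hK : 0 < K) (hn : 0 < n) {k d : ℕ} (x : Fin n)
    (D D' : Finset (Fin k)) (hD : D.card = d) (hD' : D'.card = d) (hne : D ≠ D') :
    ∑ σ : Fin k → Fin K, ∑ z, tw B (del σ D) x z * tw B (del σ D') x z = 0 := by
  obtain ⟨p, hp', hp⟩ : ∃ p ∈ D', p ∉ D := by
    by_contra hcon
    push Not at hcon
    have : D' ⊆ D := hcon
    exact hne (Finset.eq_of_subset_of_card_le this (by omega)).symm
  have key : ∀ σ : Fin k → Fin K, ∑ a, ∑ z, tw B (del (Function.update σ p a) D) x z *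
      tw B (del (Function.update σ p a) D') x z = 0 := by
    intro σ
    have e1 : ∀ a, del (Function.update σ p a) D' = del σ D' := by
      intro a
      rw [del, del, map_update_eq]
      simp [hp']
    have e2 : ∑ a, tw B (del (Function.update σ p a) D) = 0 := by
      apply sum_update_zero hB hK hn σ p _ (del_nodup D)
      simp [hp]
    rw [Finset.sum_comm]
    apply Finset.sum_eq_zero
    intro z _
    simp only [e1]
    rw [← Finset.sum_mul]
    have : ∑ a, tw B (del (Function.update σ p a) D) x z = 0 := by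
      have := congrFun (congrFun e2 x) z
      rw [Matrix.sum_apply] at this
      simpa using this
    rw [this, zero_mul]
  have h := avg (K := K) p (fun σ => ∑ z, tw B (del σ D) x z * tw B (del σ D') x z)
  rw [Finset.sum_congr rfl fun σ _ => key σ, Finset.sum_const_zero] at h
  have hK' : (K : ℝ) ≠ 0 := by positivity
  rcases mul_eq_zero.1 h.symm with h | h
  · exact absurd h hK'
  · exact h

/-- the average over all deletions. -/
noncomputable def tbar {n K : ℕ} (B : Fin K → Matrix (Fin n) (Fin n) ℝ) {k : ℕ} (d : ℕ)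
    (σ : Fin k → Fin K) (x z : Fin n) : ℝ :=
  (1 / (k.choose d : ℝ)) * ∑ D ∈ (Finset.univ : Finset (Fin k)).powersetCard d,
    tw B (del σ D) x z

lemma tbar_sq (hB : Exact B) (hK : 0 < K) (hn : 0 < n) {k d : ℕ} (hd : d < k) (x : Fin n) :
    ∑ σ : Fin k → Fin K, ∑ z, tbar B d σ x z ^ 2
      ≤ (K : ℝ) ^ k * ((1 / (k.choose d : ℝ)) * (K / n)) := by
  have hC : (0 : ℝ) < k.choose d := by exact_mod_cast Nat.choose_pos hd.le
  set S := (Finset.univ : Finset (Fin k)).powersetCard d with hS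
  have hScard : S.card = k.choose d := by rw [hS, Finset.card_powersetCard]; simp
  have e1 : ∀ σ : Fin k → Fin K, ∑ z, tbar B d σ x z ^ 2 = (1 / (k.choose d : ℝ)) ^ 2 *
      ∑ D ∈ S, ∑ D' ∈ S, ∑ z, tw B (del σ D) x z * tw B (del σ D') x z := by
    intro σ
    simp only [tbar, mul_pow, ← Finset.mul_sum]
    congr 1
    have : ∀ z, (∑ D ∈ S, tw B (del σ D) x z) ^ 2
        = ∑ D ∈ S, ∑ D' ∈ S, tw B (del σ D) x z * tw B (del σ D') x z := by
      intro z
      rw [sq, Finset.sum_mul_sum]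
    rw [Finset.sum_congr rfl fun z _ => this z, Finset.sum_comm]
    apply Finset.sum_congr rfl
    intro D _
    rw [Finset.sum_comm]
  rw [Finset.sum_congr rfl fun σ _ => e1 σ, ← Finset.mul_sum]
  have e2 : ∑ σ : Fin k → Fin K, ∑ D ∈ S, ∑ D' ∈ S, ∑ z,
      tw B (del σ D) x z * tw B (del σ D') x z
      = ∑ D ∈ S, ∑ σ : Fin k → Fin K, ∑ z, tw B (del σ D) x z ^ 2 := by
    rw [Finset.sum_comm]
    apply Finset.sum_congr rfl
    intro D hD
    rw [Finset.sum_comm]
    rw [Finset.sum_eq_single D]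
    · simp only [sq]
    · intro D' hD' hne
      exact orth hB hK hn x D D' (Finset.mem_powersetCard.1 hD).2
        (Finset.mem_powersetCard.1 hD').2 hne.symm
    · intro h
      exact absurd hD h
  rw [e2]
  have e3 : ∑ D ∈ S, ∑ σ : Fin k → Fin K, ∑ z, tw B (del σ D) x z ^ 2
      ≤ ∑ _D ∈ S, ∑ _σ : Fin k → Fin K, (K : ℝ) / n := by
    apply Finset.sum_le_sum
    intro D hD
    apply Finset.sum_le_sum
    intro σ _
    exact tw_row_sq hB hK hn _ (del_ne_nil hd σ D (Finset.mem_powersetCard.1 hD).2) x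
  have e4 : ∑ _D ∈ S, ∑ _σ : Fin k → Fin K, (K : ℝ) / n
      = (k.choose d : ℝ) * ((K : ℝ) ^ k * (K / n)) := by
    simp only [Finset.sum_const, Finset.card_univ, Fintype.card_pi, Fintype.card_fin,
      Finset.prod_const, nsmul_eq_mul, hScard]
    push_cast
    ring
  rw [e4] at e3
  calc (1 / (k.choose d : ℝ)) ^ 2 * _ ≤ (1 / (k.choose d : ℝ)) ^ 2 *
        ((k.choose d : ℝ) * ((K : ℝ) ^ k * (K / n))) :=
        mul_le_mul_of_nonneg_left e3 (by positivity)
    _ = _ := by field_simp

lemma count_eq {k : ℕ} (hK : 0 < K) (i j : Fin k) (hij : i ≠ j) :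
    (∑ σ : Fin k → Fin K, (if σ i = σ j then (1 : ℝ) else 0)) = (K : ℝ) ^ k / K := by
  have h := avg (K := K) j (fun σ => if σ i = σ j then (1 : ℝ) else 0)
  have e : ∀ σ : Fin k → Fin K, ∑ a, (if Function.update σ j a i = Function.update σ j a j
      then (1 : ℝ) else 0) = 1 := by
    intro σ
    simp only [Function.update_self, Function.update_of_ne hij]
    simp
  rw [Finset.sum_congr rfl fun σ _ => e σ] at h
  have hK' : (K : ℝ) ≠ 0 := by positivity
  have : (∑ _σ : Fin k → Fin K, (1 : ℝ)) = (K : ℝ) ^ k := by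
    simp
  rw [this] at h
  rw [h]
  field_simp

lemma count_mem {k : ℕ} (hK : 0 < K) (U : Finset (Fin K)) (i : Fin k) :
    (∑ σ : Fin k → Fin K, (if σ i ∈ U then (1 : ℝ) else 0)) = (K : ℝ) ^ k * U.card / K := by
  have h := avg (K := K) i (fun σ => if σ i ∈ U then (1 : ℝ) else 0)
  have e : ∀ σ : Fin k → Fin K, ∑ a, (if Function.update σ i a i ∈ U
      then (1 : ℝ) else 0) = U.card := by
    intro σ
    simp only [Function.update_self]
    simp
  rw [Finset.sum_congr rfl fun σ _ => e σ] at h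
  have hK' : (K : ℝ) ≠ 0 := by positivity
  have : (∑ _σ : Fin k → Fin K, (U.card : ℝ)) = (K : ℝ) ^ k * U.card := by
    simp
  rw [this] at h
  rw [h]
  field_simp

lemma good (hB : Exact B) (hK : 0 < K) (hn : 0 < n) {k d : ℕ} (hd : d < k)
    (U : Finset (Fin K)) (x : Fin n) (h1 : 2 * k * (U.card + k) ≤ K)
    (h2 : 16 * K ^ 2 ≤ k.choose d) :
    ∃ σ : Fin k → Fin K, Function.Injective σ ∧ (∀ i, σ i ∉ U) ∧
      4 * n * K * ∑ z, tbar B d σ x z ^ 2 ≤ 1 := by
  by_contra hcon
  push Not at hcon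
  have hK' : (0 : ℝ) < K := by positivity
  have hn' : (0 : ℝ) < n := by positivity
  have hC : (0 : ℝ) < k.choose d := by exact_mod_cast Nat.choose_pos hd.le
  have hle : ∀ σ : Fin k → Fin K, (1 : ℝ) ≤
      (∑ i : Fin k, ∑ j : Fin k, if i ≠ j then (if σ i = σ j then (1 : ℝ) else 0) else 0)
      + (∑ i : Fin k, if σ i ∈ U then (1 : ℝ) else 0)
      + 4 * n * K * ∑ z, tbar B d σ x z ^ 2 := by
    intro σ
    have a1 : (0 : ℝ) ≤ ∑ i : Fin k, ∑ j : Fin k,
        if i ≠ j then (if σ i = σ j then (1 : ℝ) else 0) else 0 := by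
      apply Finset.sum_nonneg
      intro i _
      apply Finset.sum_nonneg
      intro j _
      split_ifs <;> norm_num
    have a2 : (0 : ℝ) ≤ ∑ i : Fin k, if σ i ∈ U then (1 : ℝ) else 0 := by
      apply Finset.sum_nonneg
      intro i _
      split_ifs <;> norm_num
    have a3 : (0 : ℝ) ≤ 4 * n * K * ∑ z, tbar B d σ x z ^ 2 := by
      apply mul_nonneg (by positivity)
      exact Finset.sum_nonneg fun z _ => sq_nonneg _
    by_cases hinj : Function.Injective σ
    · by_cases hU : ∀ i, σ i ∉ U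
      · have := hcon σ hinj hU
        linarith
      · push Not at hU
        obtain ⟨i, hi⟩ := hU
        have : (1 : ℝ) ≤ ∑ i : Fin k, if σ i ∈ U then (1 : ℝ) else 0 := by
          calc (1 : ℝ) = if σ i ∈ U then (1 : ℝ) else 0 := by simp [hi]
            _ ≤ _ := Finset.single_le_sum (f := fun i : Fin k => if σ i ∈ U then (1 : ℝ) else 0)
                  (fun j _ => by split_ifs <;> norm_num) (Finset.mem_univ i)
        linarith
    · rw [Function.Injective] at hinj
      push Not at hinj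
      obtain ⟨i, j, hij, hne⟩ := hinj
      have : (1 : ℝ) ≤ ∑ i : Fin k, ∑ j : Fin k,
          if i ≠ j then (if σ i = σ j then (1 : ℝ) else 0) else 0 := by
        calc (1 : ℝ) = if i ≠ j then (if σ i = σ j then (1 : ℝ) else 0) else 0 := by
              simp [hne, hij]
          _ ≤ ∑ j : Fin k, if i ≠ j then (if σ i = σ j then (1 : ℝ) else 0) else 0 :=
              Finset.single_le_sum
                (f := fun j : Fin k => if i ≠ j then (if σ i = σ j then (1 : ℝ) else 0) else 0)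
                (fun j _ => by split_ifs <;> norm_num) (Finset.mem_univ j)
          _ ≤ _ := Finset.single_le_sum
                (f := fun i : Fin k => ∑ j : Fin k,
                  if i ≠ j then (if σ i = σ j then (1 : ℝ) else 0) else 0)
                (fun i _ => Finset.sum_nonneg fun j _ => by split_ifs <;> norm_num)
                (Finset.mem_univ i)
      linarith
  have hsum := Finset.sum_le_sum fun σ (_ : σ ∈ (Finset.univ : Finset (Fin k → Fin K))) => hle σ
  rw [Finset.sum_add_distrib, Finset.sum_add_distrib, ← Finset.mul_sum] at hsum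
  have s0 : (∑ _σ : Fin k → Fin K, (1 : ℝ)) = (K : ℝ) ^ k := by simp
  have s1 : (∑ σ : Fin k → Fin K, ∑ i : Fin k, ∑ j : Fin k,
      if i ≠ j then (if σ i = σ j then (1 : ℝ) else 0) else 0)
      ≤ (k : ℝ) * (k * ((K : ℝ) ^ k / K)) := by
    rw [Finset.sum_comm]
    calc _ ≤ ∑ _i : Fin k, ((k : ℝ) * ((K : ℝ) ^ k / K)) := by
          apply Finset.sum_le_sum
          intro i _
          rw [Finset.sum_comm]
          calc _ ≤ ∑ _j : Fin k, ((K : ℝ) ^ k / K) := by
                apply Finset.sum_le_sum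
                intro j _
                by_cases hij : i ≠ j
                · simp only [if_pos hij]
                  rw [count_eq hK i j hij]
                · simp only [if_neg hij, Finset.sum_const_zero]
                  positivity
            _ = _ := by simp
      _ = _ := by simp
  have s2 : (∑ σ : Fin k → Fin K, ∑ i : Fin k, if σ i ∈ U then (1 : ℝ) else 0)
      = (k : ℝ) * ((K : ℝ) ^ k * U.card / K) := by
    rw [Finset.sum_comm]
    rw [Finset.sum_congr rfl fun i _ => count_mem hK U i]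
    simp
  have s3 := tbar_sq hB hK hn hd x
  rw [s0, s2] at hsum
  have s4 : 4 * (n : ℝ) * K * ∑ σ : Fin k → Fin K, ∑ z, tbar B d σ x z ^ 2
      ≤ (K : ℝ) ^ k / 4 := by
    calc 4 * (n : ℝ) * K * ∑ σ : Fin k → Fin K, ∑ z, tbar B d σ x z ^ 2
        ≤ 4 * (n : ℝ) * K * ((K : ℝ) ^ k * ((1 / (k.choose d : ℝ)) * (K / n))) :=
          mul_le_mul_of_nonneg_left s3 (by positivity)
      _ = (K : ℝ) ^ k * (4 * K ^ 2 / (k.choose d : ℝ)) := by
          field_simp
      _ ≤ (K : ℝ) ^ k * (1 / 4) := by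
          apply mul_le_mul_of_nonneg_left _ (by positivity)
          rw [div_le_iff₀ hC]
          have : (16 : ℝ) * K ^ 2 ≤ k.choose d := by exact_mod_cast h2
          linarith
      _ = _ := by ring
  have s5 : (k : ℝ) * (k * ((K : ℝ) ^ k / K)) + (k : ℝ) * ((K : ℝ) ^ k * U.card / K)
      ≤ (K : ℝ) ^ k / 2 := by
    have h1' : (2 : ℝ) * k * (U.card + k) ≤ K := by exact_mod_cast h1
    have : (k : ℝ) * (k * ((K : ℝ) ^ k / K)) + (k : ℝ) * ((K : ℝ) ^ k * U.card / K)
        = (K : ℝ) ^ k * ((k : ℝ) * (U.card + k) / K) := by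
      field_simp
      ring
    rw [this]
    have h3 : (k : ℝ) * (U.card + k) / K ≤ 1 / 2 := by
      rw [div_le_iff₀ hK']
      linarith
    have h4 : (0 : ℝ) < (K : ℝ) ^ k := by positivity
    nlinarith
  have h4 : (0 : ℝ) < (K : ℝ) ^ k := by positivity
  linarith

end main

end Ear

open Ear in
theorem ear : StEar := by
  intro n K B hB hK k d U x hd h1 h2
  have hn : 0 < n := x.pos
  obtain ⟨σ, hinj, hU, hs⟩ := Ear.good hB hK hn hd U x h1 h2
  refine ⟨σ, hinj, hU, ?_⟩
  intro ρ y hρ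
  have hK' : (0 : ℝ) < K := by positivity
  have hn' : (0 : ℝ) < n := by positivity
  have hC : (0 : ℝ) < k.choose d := by exact_mod_cast Nat.choose_pos hd.le
  set S := (Finset.univ : Finset (Fin k)).powersetCard d with hS
  have hScard : S.card = k.choose d := by rw [hS, Finset.card_powersetCard]; simp
  have hSne : S.Nonempty := by
    rw [← Finset.card_pos, hScard]
    exact Nat.choose_pos hd.le
  by_contra hcon
  push Not at hcon
  have hlt : ∀ D ∈ S, (n : ℝ) * wker B (del σ D ++ ρ) x y < 1 / 2 := fun D hD =>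
    hcon D (Finset.mem_powersetCard.1 hD).2
  have hval : ∀ D ∈ S, wker B (del σ D ++ ρ) x y
      = ∑ z, tw B (del σ D) x z * tw B ρ z y + 1 / n := by
    intro D hD
    have hne := del_ne_nil hd σ D (Finset.mem_powersetCard.1 hD).2
    have e1 : tw B (del σ D) * tw B ρ = wker B (del σ D ++ ρ) - JJ n := by
      rw [tw_eq hB hK hn _ hne, tw_eq hB hK hn _ hρ, wker_append, Matrix.sub_mul, Matrix.mul_sub,
        Matrix.mul_sub, wker_mul_JJ hB hK hn, JJ_mul_wker hB hK hn, JJ_sq hn]
      abel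
    have e2 := congrFun (congrFun e1 x) y
    rw [Matrix.mul_apply, Matrix.sub_apply] at e2
    simp only [JJ] at e2
    linarith
  have hsum : ∑ D ∈ S, (n : ℝ) * wker B (del σ D ++ ρ) x y < ∑ _D ∈ S, (1 / 2 : ℝ) :=
    Finset.sum_lt_sum_of_nonempty hSne hlt
  have e3 : ∑ D ∈ S, (n : ℝ) * wker B (del σ D ++ ρ) x y
      = (k.choose d : ℝ) * (1 + n * ∑ z, tbar B d σ x z * tw B ρ z y) := by
    rw [Finset.sum_congr rfl fun D hD => by rw [hval D hD]]
    have e4 : ∑ z, tbar B d σ x z * tw B ρ z y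
        = (1 / (k.choose d : ℝ)) * ∑ D ∈ S, ∑ z, tw B (del σ D) x z * tw B ρ z y := by
      rw [Finset.sum_comm, Finset.mul_sum]
      apply Finset.sum_congr rfl
      intro z _
      rw [tbar, mul_assoc, Finset.sum_mul]
    rw [e4]
    simp only [mul_add, Finset.sum_add_distrib, ← Finset.mul_sum]
    rw [Finset.sum_const, hScard, nsmul_eq_mul]
    field_simp
    ring
  rw [e3, Finset.sum_const, hScard, nsmul_eq_mul] at hsum
  have h5 : (1 : ℝ) + n * ∑ z, tbar B d σ x z * tw B ρ z y < 1 / 2 :=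
    lt_of_mul_lt_mul_left hsum hC.le
  have hcs := Finset.sum_mul_sq_le_sq_mul_sq Finset.univ (fun z => tbar B d σ x z)
    (fun z => tw B ρ z y)
  have h6 := tw_col_sq hB hK hn ρ hρ y
  have h7 : ∑ z, tbar B d σ x z ^ 2 ≤ 1 / (4 * n * K) := by
    rw [le_div_iff₀ (by positivity)]
    linarith
  have h8 : (∑ z, tbar B d σ x z * tw B ρ z y) ^ 2 ≤ (1 / (2 * n)) ^ 2 := by
    calc (∑ z, tbar B d σ x z * tw B ρ z y) ^ 2
        ≤ (∑ z, tbar B d σ x z ^ 2) * ∑ z, tw B ρ z y ^ 2 := hcs
      _ ≤ (1 / (4 * n * K)) * (K / n) := by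
          apply mul_le_mul h7 h6 (Finset.sum_nonneg fun z _ => sq_nonneg _) (by positivity)
      _ = _ := by
          field_simp
          norm_num
  have h9 := abs_le_of_sq_le_sq h8 (by positivity)
  have h10 : -(1 / (2 * (n : ℝ))) ≤ ∑ z, tbar B d σ x z * tw B ρ z y :=
    (abs_le.1 h9).1
  have h11 : (n : ℝ) * (-(1 / (2 * (n : ℝ)))) ≤ n * ∑ z, tbar B d σ x z * tw B ρ z y :=
    mul_le_mul_of_nonneg_left h10 hn'.le
  have h12 : (n : ℝ) * (-(1 / (2 * (n : ℝ)))) = -(1 / 2) := by field_simp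
  linarith

end Pool.Agent.Lib.MP_b1acb3_co.Cyc
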