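import Pool.Agent.Lib.MP_b1acb3_co.Cyc.Words

/-!
Assembly, part 2: embedding of the ears one after the other.
-/

namespace Pool.Agent.Lib.MP_b1acb3_co.Cyc

open Finset

theorem embed_ears {V : Type} [Fintype V] (G : SimpleGraph V) (W W₀ : Finset V) (q k : ℕ)
    (m : Fin q → ℕ) (P : Fin q → ℕ → V) (hP : Ears G W W₀ q k m P) {n K : ℕ}
    (c : Sym2 (Fin n) → Fin K) (f₀ : V → Fin n) (hf₀ : Function.Injective f₀)
    (w : Fin q → List (Fin K)) (hlen : ∀ i, (w i).length = m i + 1)
    (hpath : ∀ (i : Fin q) (Z : Finset (Fin n)), Z.card ≤ Fintype.card V →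
      ∃ z : ℕ → Fin n, z 0 = f₀ (P i 0) ∧ z (m i + 1) = f₀ (P i (m i + 1)) ∧
        (∀ (j : ℕ) (hj : j < (w i).length), c s(z j, z (j + 1)) = (w i)[j]) ∧
        (∀ j, 1 ≤ j → j < m i + 1 → z j ∉ Z) ∧
        (∀ j j', 1 ≤ j → j < m i + 1 → 1 ≤ j' → j' < m i + 1 → z j = z j' → j = j')) :
    ∀ t, t ≤ q → ∃ f : V → Fin n, Function.Injective f ∧ (∀ v ∈ W₀, f v = f₀ v) ∧
      ∀ i : Fin q, (i : ℕ) < t → ∀ (j : ℕ) (hj : j < (w i).length),
        c s(f (P i j), f (P i (j + 1))) = (w i)[j] := by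
  classical
  intro t
  induction t with
  | zero =>
    intro _
    exact ⟨f₀, hf₀, fun _ _ => rfl, fun i hi => absurd hi (Nat.not_lt_zero _)⟩
  | succ t ih =>
    intro ht
    obtain ⟨f, hf, hfW, hfc⟩ := ih (by omega)
    set i₀ : Fin q := ⟨t, by omega⟩ with hi₀
    obtain ⟨z, hz0, hz1, hzc, hzZ, hzi⟩ := hpath i₀ (univ.image f)
      (card_image_le.trans (le_of_eq card_univ))
    set g : V → Fin n := fun v => if h : ∃ j, 1 ≤ j ∧ j ≤ m i₀ ∧ P i₀ j = v then z h.choose
      else f v with hg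
    have hg1 : ∀ j, 1 ≤ j → j ≤ m i₀ → g (P i₀ j) = z j := by
      intro j hj1 hj2
      have h : ∃ j', 1 ≤ j' ∧ j' ≤ m i₀ ∧ P i₀ j' = P i₀ j := ⟨j, hj1, hj2, rfl⟩
      simp only [hg]
      rw [dif_pos h]
      have h2 := h.choose_spec
      rw [(hP.inj i₀ _ i₀ j h2.1 h2.2.1 hj1 hj2 h2.2.2).2]
    have hg2 : ∀ v, (∀ j, 1 ≤ j → j ≤ m i₀ → P i₀ j ≠ v) → g v = f v := by
      intro v hv
      simp only [hg]
      rw [dif_neg]
      rintro ⟨j, h1, h2, h3⟩
      exact hv j h1 h2 h3
    have hgW : ∀ v ∈ W₀, g v = f₀ v := by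
      intro v hv
      rw [hg2 v, hfW v hv]
      intro j h1 h2 h3
      exact (hP.inner i₀ j h1 h2).2 (h3 ▸ hv)
    have hgz : ∀ j, j ≤ m i₀ + 1 → g (P i₀ j) = z j := by
      intro j hj
      rcases Nat.eq_zero_or_pos j with rfl | hj0
      · rw [hgW _ (hP.start i₀), hz0]
      · rcases Nat.lt_or_ge j (m i₀ + 1) with h | h
        · exact hg1 j hj0 (by omega)
        · have : j = m i₀ + 1 := by omega
          rw [this, hgW _ (hP.stop i₀), hz1]
    refine ⟨g, ?_, hgW, ?_⟩
    · intro a b hab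
      by_cases ha : ∃ j, 1 ≤ j ∧ j ≤ m i₀ ∧ P i₀ j = a
      · obtain ⟨j, hj1, hj2, rfl⟩ := ha
        by_cases hb : ∃ j, 1 ≤ j ∧ j ≤ m i₀ ∧ P i₀ j = b
        · obtain ⟨j', hj1', hj2', rfl⟩ := hb
          rw [hg1 j hj1 hj2, hg1 j' hj1' hj2'] at hab
          rw [hzi j j' hj1 (by omega) hj1' (by omega) hab]
        · exfalso
          push Not at hb
          rw [hg1 j hj1 hj2, hg2 b hb] at hab
          apply hzZ j hj1 (by omega)
          rw [hab]
          exact mem_image_of_mem f (mem_univ b)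
      · push Not at ha
        by_cases hb : ∃ j, 1 ≤ j ∧ j ≤ m i₀ ∧ P i₀ j = b
        · exfalso
          obtain ⟨j', hj1', hj2', rfl⟩ := hb
          rw [hg1 j' hj1' hj2', hg2 a ha] at hab
          apply hzZ j' hj1' (by omega)
          rw [← hab]
          exact mem_image_of_mem f (mem_univ a)
        · push Not at hb
          rw [hg2 a ha, hg2 b hb] at hab
          exact hf hab
    · intro i hi j hj
      by_cases hii : i = i₀
      · subst hii
        have hl := hlen i₀
        rw [hgz j (by omega), hgz (j + 1) (by omega)]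
        exact hzc j hj
      · have hi' : (i : ℕ) < t := by
          have : (i : ℕ) ≠ t := fun h => hii (Fin.ext h)
          omega
        have hsame : ∀ j, j ≤ m i + 1 → g (P i j) = f (P i j) := by
          intro j hj
          apply hg2
          intro j' h1 h2 h3
          rcases Nat.eq_zero_or_pos j with rfl | hj0
          · exact (hP.inner i₀ j' h1 h2).2 (h3 ▸ hP.start i)
          · rcases Nat.lt_or_ge j (m i + 1) with h | h
            · exact hii (hP.inj i₀ j' i j h1 h2 hj0 (by omega) h3).1.symm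
            · have : j = m i + 1 := by omega
              rw [this] at h3
              exact (hP.inner i₀ j' h1 h2).2 (h3 ▸ hP.stop i)
        have hl := hlen i
        rw [hsame j (by omega), hsame (j + 1) (by omega)]
        exact hfc i hi' j hj

/-- Every edge of `G[W]` is an edge of `G[W₀]` or an edge of an ear. -/
theorem edge_cases {V : Type} [Fintype V] (G : SimpleGraph V) (W W₀ : Finset V) (q k : ℕ)
    (m : Fin q → ℕ) (P : Fin q → ℕ → V) (hP : Ears G W W₀ q k m P) (e : Sym2 V)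
    (he : e ∈ edgesIn G W) :
    e ∈ edgesIn G W₀ ∨ ∃ (i : Fin q) (j : ℕ), j ≤ m i ∧ e = s(P i j, P i (j + 1)) := by
  classical
  have key : ∀ a b, a ∈ W → b ∈ W → G.Adj a b → a ∉ W₀ →
      ∃ (i : Fin q) (j : ℕ), j ≤ m i ∧ s(a, b) = s(P i j, P i (j + 1)) := by
    intro a b ha hb hab ha0
    obtain ⟨i, j, hj1, hj2, rfl⟩ := hP.cover a ha ha0
    rcases hP.only i j b hj1 hj2 hb hab with rfl | rfl
    · refine ⟨i, j - 1, by omega, ?_⟩
      rw [Nat.sub_add_cancel hj1]
      exact Sym2.eq_swap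
    · exact ⟨i, j, hj2, rfl⟩
  rw [mem_edgesIn] at he
  induction e using Sym2.ind with
  | _ a b =>
    have ha := he.2 a (Sym2.mem_mk_left a b)
    have hb := he.2 b (Sym2.mem_mk_right a b)
    have hab : G.Adj a b := he.1
    by_cases ha0 : a ∈ W₀
    · by_cases hb0 : b ∈ W₀
      · left
        rw [mem_edgesIn]
        refine ⟨hab, ?_⟩
        intro x hx
        rw [Sym2.mem_iff] at hx
        rcases hx with rfl | rfl
        · exact ha0
        · exact hb0
      · right
        rw [Sym2.eq_swap]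
        exact key b a hb ha hab.symm hb0
    · right
      exact key a b ha hb hab ha0

end Pool.Agent.Lib.MP_b1acb3_co.Cyc
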