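import Pool.Agent.Lib.MP_b1acb3_co.Cyc.Stmts

/-!
(C1) Exact kernels close to a balanced colouring.
-/

namespace Pool.Agent.Lib.MP_b1acb3_co.Cyc

open Finset

/-- (C1) Exact kernels close to a balanced colouring. -/
theorem exact_kernels : StExact := by
  classical
  intro K hK δ hδ
  obtain ⟨d, hd0, hd1, hdδ⟩ : ∃ d : ℝ, 0 < d ∧ d ≤ 1 / 2 ∧ 2 * d ≤ δ := by
    refine ⟨min δ 1 / 2, ?_, ?_, ?_⟩
    · have := lt_min hδ one_pos
      linarith
    · have := min_le_right δ 1
      linarith
    · have := min_le_left δ 1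
      linarith
  have hKR : (0 : ℝ) < K := by exact_mod_cast hK
  have hK1 : (1 : ℝ) ≤ K := by exact_mod_cast hK
  obtain ⟨ε, hε⟩ : ∃ ε : ℝ, ε = d / (3 * K) := ⟨_, rfl⟩
  have hε0 : 0 < ε := by rw [hε]; positivity
  have hεK : 3 * ε * K = d := by rw [hε]; field_simp
  refine ⟨ε, hε0, ?_⟩
  intro n hn c hc
  have hnR : (0 : ℝ) < n := by exact_mod_cast hn
  -- the indicator of the colour `k`
  let A : Fin K → Fin n → Fin n → ℝ := fun k i j => if c s(i, j) = k then 1 else 0
  have hAsymm : ∀ k i j, A k i j = A k j i := by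
    intro k i j
    simp only [A]
    rw [Sym2.eq_swap]
  have hA0 : ∀ k i j, 0 ≤ A k i j := by
    intro k i j
    simp only [A]
    split_ifs <;> norm_num
  have hAsum : ∀ i j, ∑ k, A k i j = 1 := by
    intro i j
    simp only [A]
    rw [sum_ite_eq]
    simp
  let a : Fin K → Fin n → ℝ := fun k i => ∑ j, A k i j
  have ha1 : ∀ i, ∑ k, a k i = n := by
    intro i
    simp only [a]
    rw [sum_comm]
    simp only [hAsum]
    simp
  have halow : ∀ k i, (1 - ε) * n / K ≤ a k i := by
    intro k i
    refine (hc i k).trans ?_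
    simp only [a, A, colourDegree]
    rw [sum_boole]
    have : (univ.filter (fun j : Fin n => j ≠ i ∧ c s(i, j) = k)).card
        ≤ (univ.filter (fun j : Fin n => c s(i, j) = k)).card := by
      apply card_le_card
      intro j hj
      rw [mem_filter] at hj ⊢
      exact ⟨hj.1, hj.2.2⟩
    exact_mod_cast this
  have haup : ∀ k i, a k i ≤ n / K + ε * n := by
    intro k i
    have h1 := ha1 i
    rw [← add_sum_erase univ _ (mem_univ k)] at h1
    have h2 : ((K : ℝ) - 1) * ((1 - ε) * n / K) ≤ ∑ k' ∈ univ.erase k, a k' i := by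
      calc ((K : ℝ) - 1) * ((1 - ε) * n / K) = ∑ _k' ∈ univ.erase k, ((1 - ε) * n / K) := by
            rw [sum_const, card_erase_of_mem (mem_univ _), card_univ, Fintype.card_fin,
              nsmul_eq_mul, Nat.cast_sub hK]
            push_cast
            ring
        _ ≤ _ := sum_le_sum (fun k' _ => halow k' i)
    have h3 : ((K : ℝ) - 1) * ((1 - ε) * n / K) = n - n / K - ε * n + ε * n / K := by
      field_simp
      ring
    have h4 : 0 ≤ ε * n / K := by positivity
    linarith
  let r : Fin K → Fin n → ℝ := fun k i => n / K - (1 - d) * a k i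
  let s : Fin K → ℝ := fun k => ∑ i, r k i
  have hrdef : ∀ k i, r k i = n / K - (1 - d) * a k i := fun _ _ => rfl
  have hsdef : ∀ k, s k = ∑ i, r k i := fun _ => rfl
  have hrlow : ∀ k i, d * n / K - ε * n ≤ r k i := by
    intro k i
    rw [hrdef]
    have h1 : (1 - d) * a k i ≤ (1 - d) * (n / K + ε * n) :=
      mul_le_mul_of_nonneg_left (haup k i) (by linarith)
    have h2 : (1 - d) * (n / K + ε * n) = n / K - d * n / K + ε * n - d * (ε * n) := by ring
    have h3 : 0 ≤ d * (ε * n) := by positivity
    linarith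
  have hrup : ∀ k i, r k i ≤ d * n / K + ε * n := by
    intro k i
    rw [hrdef]
    have h1 : (1 - d) * ((1 - ε) * n / K) ≤ (1 - d) * a k i :=
      mul_le_mul_of_nonneg_left (halow k i) (by linarith)
    have h2 : (1 - d) * ((1 - ε) * n / K) = n / K - d * n / K - ε * n / K + d * (ε * n / K) := by
      ring
    have h3 : 0 ≤ d * (ε * n / K) := by positivity
    have h4 : ε * n / K ≤ ε * n := by
      rw [div_le_iff₀ hKR]
      have : ε * n * 1 ≤ ε * n * K := mul_le_mul_of_nonneg_left hK1 (by positivity)
      linarith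
    linarith
  have hslow : ∀ k, n * (d * n / K - ε * n) ≤ s k := by
    intro k
    rw [hsdef]
    have := card_nsmul_le_sum univ (fun i => r k i) _ (fun i _ => hrlow k i)
    rwa [card_univ, Fintype.card_fin, nsmul_eq_mul] at this
  have hsup : ∀ k, s k ≤ n * (d * n / K + ε * n) := by
    intro k
    rw [hsdef]
    have := sum_le_card_nsmul univ (fun i => r k i) _ (fun i _ => hrup k i)
    rwa [card_univ, Fintype.card_fin, nsmul_eq_mul] at this
  have hrsum : ∀ i, ∑ k, r k i = d * n := by
    intro i
    simp only [hrdef]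
    rw [sum_sub_distrib, ← mul_sum, ha1]
    simp only [sum_const, card_univ, Fintype.card_fin, nsmul_eq_mul]
    field_simp
    ring
  have hssum : ∑ k, s k = n * (d * n) := by
    simp only [hsdef]
    rw [sum_comm]
    simp only [hrsum]
    simp
  have hcorlow : ∀ k i j, 0 ≤ (r k i + r k j) / n - s k / n ^ 2 := by
    intro k i j
    have h1 : 2 * (d * n / K - ε * n) / n ≤ (r k i + r k j) / n := by
      apply div_le_div_of_nonneg_right _ hnR.le
      linarith [hrlow k i, hrlow k j]
    have h2 : s k / n ^ 2 ≤ n * (d * n / K + ε * n) / n ^ 2 :=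
      div_le_div_of_nonneg_right (hsup k) (by positivity)
    have h3 : 2 * (d * n / K - ε * n) / n = 2 * d / K - 2 * ε := by field_simp
    have h4 : n * (d * n / K + ε * n) / (n : ℝ) ^ 2 = d / K + ε := by field_simp
    have h5 : d / K = 3 * ε := by
      rw [← hεK]
      field_simp
    have h6 : 2 * d / K = 2 * (d / K) := by ring
    rw [h3] at h1
    rw [h4] at h2
    rw [h6] at h1
    linarith
  have hcorup : ∀ k i j, (r k i + r k j) / n - s k / n ^ 2 ≤ δ := by
    intro k i j
    have h1 : (r k i + r k j) / n ≤ 2 * (d * n / K + ε * n) / n := by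
      apply div_le_div_of_nonneg_right _ hnR.le
      linarith [hrup k i, hrup k j]
    have h2 : n * (d * n / K - ε * n) / n ^ 2 ≤ s k / n ^ 2 :=
      div_le_div_of_nonneg_right (hslow k) (by positivity)
    have h3 : 2 * (d * n / K + ε * n) / n = 2 * d / K + 2 * ε := by field_simp
    have h4 : n * (d * n / K - ε * n) / (n : ℝ) ^ 2 = d / K - ε := by field_simp
    have h5 : d / K = 3 * ε := by
      rw [← hεK]
      field_simp
    have h6 : 2 * d / K = 2 * (d / K) := by ring
    have h7 : d / K ≤ d := by
      rw [div_le_iff₀ hKR]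
      have : d * 1 ≤ d * K := mul_le_mul_of_nonneg_left hK1 hd0.le
      linarith
    rw [h3] at h1
    rw [h4] at h2
    rw [h6] at h1
    linarith
  refine ⟨fun k i j => (1 - d) * A k i j + ((r k i + r k j) / n - s k / n ^ 2), ?_, ?_⟩
  · refine ⟨?_, ?_, ?_, ?_⟩
    · intro k i j
      have h1 : 0 ≤ (1 - d) * A k i j := mul_nonneg (by linarith) (hA0 k i j)
      have h2 := hcorlow k i j
      show 0 ≤ (1 - d) * A k i j + ((r k i + r k j) / n - s k / n ^ 2)
      linarith
    · intro k i j
      show (1 - d) * A k i j + ((r k i + r k j) / n - s k / n ^ 2) =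
        (1 - d) * A k j i + ((r k j + r k i) / n - s k / n ^ 2)
      rw [hAsymm, add_comm (r k i)]
    · intro k i
      show ∑ j, ((1 - d) * A k i j + ((r k i + r k j) / n - s k / n ^ 2)) = (n : ℝ) / (K : ℝ)
      have h1 : ∑ j, A k i j = a k i := rfl
      rw [sum_add_distrib, ← mul_sum, h1, sum_sub_distrib, ← sum_div, sum_add_distrib, ← hsdef]
      simp only [sum_const, card_univ, Fintype.card_fin, nsmul_eq_mul]
      rw [hrdef]
      field_simp
      ring
    · intro i j
      show ∑ k, ((1 - d) * A k i j + ((r k i + r k j) / n - s k / n ^ 2)) = 1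
      rw [sum_add_distrib, ← mul_sum, hAsum, sum_sub_distrib, ← sum_div, sum_add_distrib,
        hrsum, hrsum, ← sum_div, hssum]
      field_simp
      ring
  · intro k i j
    have h1 : (1 - d) * A k i j ≤ A k i j := by
      have : 0 ≤ d * A k i j := mul_nonneg hd0.le (hA0 k i j)
      linarith
    have h2 := hcorup k i j
    show (1 - d) * A k i j + ((r k i + r k j) / n - s k / n ^ 2) ≤ A k i j + δ
    linarith

end Pool.Agent.Lib.MP_b1acb3_co.Cyc
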