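import Pool.Agent.Lib.MP_b1acb3_co.Cyc.Stmts

/-!
(C9) The graph theory of graphs that become forests after deleting `b` edges.
-/

namespace Pool.Agent.Lib.MP_b1acb3_co.Cyc

open Finset

/-- A finite forest has a vertex of degree at most one. -/
theorem forest_leaf {V : Type} (H : SimpleGraph V) (h : H.IsAcyclic) (Y : Finset V)
    (hY : Y.Nonempty) : ∃ y ∈ Y, {u | u ∈ Y ∧ H.Adj y u}.ncard ≤ 1 := by
  classical
  obtain ⟨y₀, hy₀⟩ := hY
  set K : SimpleGraph (Y : Set V) := H.induce (Y : Set V) with hK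
  have hKa : K.IsAcyclic := h.induce _
  set c := K.connectedComponentMk ⟨y₀, hy₀⟩ with hc
  have hT := hKa.isTree_connectedComponent c
  have hmem : (⟨y₀, hy₀⟩ : (Y : Set V)) ∈ c := by
    rw [hc]
    exact SimpleGraph.ConnectedComponent.connectedComponentMk_mem
  have : Fintype c := Fintype.ofFinite _
  by_cases hn : Nontrivial c
  · obtain ⟨⟨⟨y, hy⟩, hyc⟩, hdeg⟩ := hT.exists_vert_degree_one_of_nontrivial
    refine ⟨y, hy, ?_⟩
    rw [← hdeg, ← SimpleGraph.card_neighborFinset_eq_degree, ← Set.ncard_coe_finset]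
    refine Set.ncard_le_ncard_of_injOn
      (fun u => if hu : u ∈ Y ∧ H.Adj y u then
        (⟨⟨u, hu.1⟩, ?_⟩ : c) else ⟨⟨y, hy⟩, hyc⟩) ?_ ?_ (Set.toFinite _)
    · have hadj : K.Adj ⟨y, hy⟩ ⟨u, hu.1⟩ := by
        rw [hK, SimpleGraph.comap_adj]
        exact hu.2
      exact (SimpleGraph.ConnectedComponent.mem_supp_congr_adj c hadj).1 hyc
    · intro u hu
      have hu' : u ∈ Y ∧ H.Adj y u := hu
      simp only [dif_pos hu', coe_sort_coe]
      rw [Finset.mem_coe, SimpleGraph.mem_neighborFinset]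
      show K.Adj ⟨y, hy⟩ ⟨u, hu'.1⟩
      rw [hK, SimpleGraph.comap_adj]
      exact hu'.2
    · intro u hu w hw huw
      have hu' : u ∈ Y ∧ H.Adj y u := hu
      have hw' : w ∈ Y ∧ H.Adj y w := hw
      simp only [dif_pos hu', dif_pos hw', Subtype.mk.injEq] at huw
      exact huw
  · rw [not_nontrivial_iff_subsingleton] at hn
    refine ⟨y₀, hy₀, ?_⟩
    have : {u | u ∈ Y ∧ H.Adj y₀ u} = ∅ := by
      ext u
      simp only [Set.mem_ofPred_eq, Set.mem_empty_iff_false, iff_false, not_and]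
      intro hu hadj
      have hadj' : K.Adj ⟨y₀, hy₀⟩ ⟨u, hu⟩ := by
        rw [hK, SimpleGraph.comap_adj]
        exact hadj
      have hu2 := (SimpleGraph.ConnectedComponent.mem_supp_congr_adj c hadj').1 hmem
      have := hn.elim (⟨⟨y₀, hy₀⟩, hmem⟩ : c) ⟨⟨u, hu⟩, hu2⟩
      have h2 : y₀ = u := by
        have := congrArg (fun z : c => ((z : (Y : Set V)) : V)) this
        exact this
      exact hadj.ne h2
    rw [this]
    simp

theorem numEdgesIn_erase {V : Type} (G : SimpleGraph V) (Y : Finset V) (y : V)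
    [DecidableEq V] : numEdgesIn G Y ≤ numEdgesIn G (Y.erase y) +
      {u | u ∈ Y ∧ G.Adj y u}.ncard := by
  unfold numEdgesIn
  have hfin1 : {e ∈ G.edgeSet | ∀ x ∈ e, x ∈ Y.erase y}.Finite := by
    apply Set.Finite.subset (Y.sym2.finite_toSet)
    intro e he
    rw [Finset.mem_coe, Finset.mem_sym2_iff]
    intro x hx
    exact Finset.mem_of_mem_erase (he.2 x hx)
  have hfin2 : {u | u ∈ Y ∧ G.Adj y u}.Finite := by
    apply Set.Finite.subset (Y.finite_toSet)
    intro u hu
    exact hu.1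
  have hsub : {e ∈ G.edgeSet | ∀ x ∈ e, x ∈ Y} ⊆
      {e ∈ G.edgeSet | ∀ x ∈ e, x ∈ Y.erase y} ∪
        (fun u => s(y, u)) '' {u | u ∈ Y ∧ G.Adj y u} := by
    rintro e ⟨he, heY⟩
    by_cases hy : y ∈ e
    · right
      obtain ⟨u, rfl⟩ := Sym2.mem_iff_exists.1 hy
      exact ⟨u, ⟨heY u (Sym2.mem_mk_right _ _), G.mem_edgeSet.1 he⟩, rfl⟩
    · left
      refine ⟨he, fun x hx => Finset.mem_erase.2 ⟨?_, heY x hx⟩⟩
      rintro rfl
      exact hy hx
  calc _ ≤ ({e ∈ G.edgeSet | ∀ x ∈ e, x ∈ Y.erase y} ∪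
        (fun u => s(y, u)) '' {u | u ∈ Y ∧ G.Adj y u}).ncard :=
        Set.ncard_le_ncard hsub (hfin1.union (hfin2.image _))
    _ ≤ _ := Set.ncard_union_le _ _
    _ ≤ _ := Nat.add_le_add_left (Set.ncard_image_le hfin2) _

/-- A forest on `m ≥ 1` vertices has at most `m - 1` edges. -/
theorem forest_edges {V : Type} (H : SimpleGraph V) (h : H.IsAcyclic) :
    ∀ (m : ℕ) (Y : Finset V), Y.card = m + 1 → numEdgesIn H Y + 1 ≤ Y.card := by
  classical
  intro m
  induction m with
  | zero =>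
    intro Y hY
    obtain ⟨y, rfl⟩ := Finset.card_eq_one.1 hY
    have : {e ∈ H.edgeSet | ∀ x ∈ e, x ∈ ({y} : Finset V)} = ∅ := by
      ext e
      simp only [Set.mem_sep_iff, Set.mem_empty_iff_false, iff_false, not_and]
      intro he hx
      induction e with
      | _ a b =>
        have ha := Finset.mem_singleton.1 (hx a (Sym2.mem_mk_left _ _))
        have hb := Finset.mem_singleton.1 (hx b (Sym2.mem_mk_right _ _))
        rw [ha, hb] at he
        exact H.loopless.irrefl y (H.mem_edgeSet.1 he)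
    unfold numEdgesIn
    rw [this]
    simp
  | succ m ih =>
    intro Y hY
    obtain ⟨y, hyY, hy⟩ := forest_leaf H h Y (Finset.card_pos.1 (by omega))
    have h1 := numEdgesIn_erase H Y y
    have h2 : (Y.erase y).card = m + 1 := by rw [Finset.card_erase_of_mem hyY]; omega
    have h3 := ih (Y.erase y) h2
    omega

theorem numEdgesIn_le_delete {V : Type} (G : SimpleGraph V) (S : Finset (Sym2 V))
    (Y : Finset V) :
    numEdgesIn G Y ≤ numEdgesIn (G.deleteEdges (S : Set (Sym2 V))) Y + S.card := by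
  unfold numEdgesIn
  have hfin1 : {e ∈ (G.deleteEdges (S : Set (Sym2 V))).edgeSet | ∀ x ∈ e, x ∈ Y}.Finite := by
    classical
    apply Set.Finite.subset (Y.sym2.finite_toSet)
    intro e he
    rw [Finset.mem_coe, Finset.mem_sym2_iff]
    exact he.2
  have hsub : {e ∈ G.edgeSet | ∀ x ∈ e, x ∈ Y} ⊆
      {e ∈ (G.deleteEdges (S : Set (Sym2 V))).edgeSet | ∀ x ∈ e, x ∈ Y} ∪ (S : Set (Sym2 V)) := by
    rintro e ⟨he, heY⟩
    by_cases hS : e ∈ (S : Set (Sym2 V))
    · right; exact hS
    · left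
      refine ⟨?_, heY⟩
      rw [SimpleGraph.edgeSet_deleteEdges]
      exact ⟨he, hS⟩
  calc _ ≤ ({e ∈ (G.deleteEdges (S : Set (Sym2 V))).edgeSet | ∀ x ∈ e, x ∈ Y} ∪
        (S : Set (Sym2 V))).ncard := Set.ncard_le_ncard hsub (hfin1.union S.finite_toSet)
    _ ≤ _ := Set.ncard_union_le _ _
    _ = _ := by rw [Set.ncard_coe_finset]

theorem edges_le {V : Type} (G : SimpleGraph V) (S : Finset (Sym2 V)) (b : ℕ) (hS : S.card ≤ b)
    (hac : (G.deleteEdges (S : Set (Sym2 V))).IsAcyclic) (Y : Finset V) (hY : Y.Nonempty) :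
    numEdgesIn G Y + 1 ≤ Y.card + b := by
  have h1 := numEdgesIn_le_delete G S Y
  have h2 := forest_edges _ hac (Y.card - 1) Y (by have := Finset.card_pos.2 hY; omega)
  omega

/-- Handshake lemma inside `Y`. -/
theorem handshake {V : Type} [Fintype V] (G : SimpleGraph V) (Y : Finset V) :
    ∑ v ∈ Y, {u | u ∈ Y ∧ G.Adj v u}.ncard = 2 * numEdgesIn G Y := by
  classical
  let Gi : SimpleGraph V :=
    { Adj := fun v u => G.Adj v u ∧ v ∈ Y ∧ u ∈ Y
      symm := ⟨fun v u h => ⟨h.1.symm, h.2.2, h.2.1⟩⟩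
      loopless := ⟨fun v h => G.loopless.irrefl v h.1⟩ }
  have h1 := Gi.sum_degrees_eq_twice_card_edges
  have h2 : Gi.edgeFinset.card = numEdgesIn G Y := by
    unfold numEdgesIn
    rw [← Set.ncard_coe_finset]
    congr 1
    ext e
    rw [SimpleGraph.coe_edgeFinset]
    induction e with
    | _ a b =>
      rw [Set.mem_sep_iff, SimpleGraph.mem_edgeSet, SimpleGraph.mem_edgeSet]
      constructor
      · rintro ⟨hab, ha, hb⟩
        refine ⟨hab, fun x hx => ?_⟩
        rcases Sym2.mem_iff.1 hx with rfl | rfl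
        · exact ha
        · exact hb
      · rintro ⟨hab, h⟩
        exact ⟨hab, h a (Sym2.mem_mk_left _ _), h b (Sym2.mem_mk_right _ _)⟩
  have h3 : ∀ v ∈ Y, Gi.degree v = {u | u ∈ Y ∧ G.Adj v u}.ncard := by
    intro v hv
    rw [← SimpleGraph.card_neighborFinset_eq_degree, ← Set.ncard_coe_finset]
    congr 1
    ext u
    rw [SimpleGraph.coe_neighborFinset, SimpleGraph.mem_neighborSet]
    exact ⟨fun h => ⟨h.2.2, h.1⟩, fun h => ⟨h.2, hv, h.1⟩⟩
  have h4 : ∀ v, v ∉ Y → Gi.degree v = 0 := by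
    intro v hv
    rw [← SimpleGraph.card_neighborFinset_eq_degree, Finset.card_eq_zero,
      Finset.eq_empty_iff_forall_notMem]
    intro u hu
    rw [SimpleGraph.mem_neighborFinset] at hu
    exact hv hu.2.1
  rw [← h2, ← h1, ← Finset.sum_subset (Finset.subset_univ Y) (fun v _ hv => h4 v hv)]
  exact Finset.sum_congr rfl fun v hv => (h3 v hv).symm

/-- Minimal part outside which the graph is tree-like: all inner degrees are at least two. -/
theorem exists_core {V : Type} [Fintype V] (G : SimpleGraph V) (W : Finset V)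
    (hW : TreeLikeOutside G W) : ∃ W' ⊆ W, TreeLikeOutside G W' ∧
      ∀ v ∈ W', 2 ≤ {u | u ∈ W' ∧ G.Adj v u}.ncard := by
  classical
  obtain ⟨W', hW', hmin⟩ := Finset.exists_min_image
    (W.powerset.filter fun X => TreeLikeOutside G X) Finset.card
    ⟨W, by simp [hW]⟩
  rw [Finset.mem_filter, Finset.mem_powerset] at hW'
  refine ⟨W', hW'.1, hW'.2, ?_⟩
  intro v hv
  by_contra hcon
  have hle : {u | u ∈ W' ∧ G.Adj v u}.ncard ≤ 1 := by omega
  have hT : TreeLikeOutside G (W'.erase v) := by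
    intro X hX
    by_cases hvX : v ∈ X
    · have hsub : W' ⊆ X := by
        intro z hz
        by_cases hzv : z = v
        · rw [hzv]; exact hvX
        · exact hX.1 (Finset.mem_erase.2 ⟨hzv, hz⟩)
      by_cases hXW : X = W'
      · exact ⟨v, hvX, Finset.notMem_erase v W', by rw [hXW]; exact hle⟩
      · obtain ⟨x, hx1, hx2, hx3⟩ := hW'.2 X (Finset.ssubset_iff_subset_ne.2 ⟨hsub, fun h => hXW h.symm⟩)
        exact ⟨x, hx1, fun h => hx2 (Finset.mem_of_mem_erase h), hx3⟩
    · have hsub : W' ⊂ insert v X := by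
        rw [Finset.ssubset_iff_of_subset]
        · obtain ⟨z, hz1, hz2⟩ := Finset.exists_of_ssubset hX
          refine ⟨z, Finset.mem_insert_of_mem hz1, fun hz => hz2 (Finset.mem_erase.2 ⟨?_, hz⟩)⟩
          rintro rfl
          exact hvX hz1
        · intro z hz
          by_cases hzv : z = v
          · rw [hzv]; exact Finset.mem_insert_self _ _
          · exact Finset.mem_insert_of_mem (hX.1 (Finset.mem_erase.2 ⟨hzv, hz⟩))
      obtain ⟨x, hx1, hx2, hx3⟩ := hW'.2 _ hsub
      have hxv : x ≠ v := by rintro rfl; exact hx2 hv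
      refine ⟨x, Finset.mem_of_mem_insert_of_ne hx1 hxv,
        fun h => hx2 (Finset.mem_of_mem_erase h), le_trans (Set.ncard_le_ncard ?_ ?_) hx3⟩
      · rintro y ⟨hy1, hy2⟩
        exact ⟨Finset.mem_insert_of_mem hy1, hy2⟩
      · exact Set.toFinite _
  have h1 := hmin (W'.erase v) (by
    rw [Finset.mem_filter, Finset.mem_powerset]
    exact ⟨(Finset.erase_subset _ _).trans hW'.1, hT⟩)
  rw [Finset.card_erase_of_mem hv] at h1
  have := Finset.card_pos.2 ⟨v, hv⟩
  omega

theorem numEdgesIn_empty {V : Type} (G : SimpleGraph V) : numEdgesIn G ∅ = 0 := by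
  unfold numEdgesIn
  have : {e ∈ G.edgeSet | ∀ x ∈ e, x ∈ (∅ : Finset V)} = ∅ := by
    ext e
    simp only [Set.mem_sep_iff, Set.mem_empty_iff_false, iff_false, not_and]
    intro he hx
    induction e with
    | _ a b => exact Finset.notMem_empty a (hx a (Sym2.mem_mk_left _ _))
  rw [this]
  simp

/-- (C9) The graph theory. -/
theorem graph_part : StGraph := by
  classical
  intro V _ G W b hW hS
  obtain ⟨S, hSb, hac⟩ := hS
  obtain ⟨W', hsub, hT, hdeg⟩ := exists_core G W hW
  -- vertices of large degree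
  set D₃ : Finset V := W'.filter fun v => 3 ≤ {u | u ∈ W' ∧ G.Adj v u}.ncard with hD3
  -- endpoints of the edges of `S` inside `W'`
  set SS : Finset (Sym2 V) := S.filter fun e => ∀ x ∈ e, x ∈ W' with hSS
  set E₀ : Finset V := SS.image fun e => (Quot.out e).1 with hE0
  have hout : ∀ e : Sym2 V, (Quot.out e).1 ∈ e := by
    intro e
    exact Sym2.out_fst_mem e
  refine ⟨W', D₃ ∪ E₀, hsub, hT, ?_, ?_⟩
  · apply Finset.union_subset (Finset.filter_subset _ _)
    intro v hv
    rw [hE0, Finset.mem_image] at hv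
    obtain ⟨e, he, rfl⟩ := hv
    rw [hSS, Finset.mem_filter] at he
    exact he.2 _ (hout e)
  have hcard : W'.Nonempty → (D₃ ∪ E₀).card + 2 ≤ 3 * b ∧ numEdgesIn G W' + 1 ≤ W'.card + b := by
    intro hne
    have h1 := edges_le G S b hSb hac W' hne
    refine ⟨?_, h1⟩
    have h2 := handshake G W'
    have h3 : 2 * W'.card + D₃.card ≤ ∑ v ∈ W', {u | u ∈ W' ∧ G.Adj v u}.ncard := by
      rw [hD3, Finset.card_filter, Finset.card_eq_sum_ones, Finset.mul_sum,
        ← Finset.sum_add_distrib]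
      apply Finset.sum_le_sum
      intro v hv
      have := hdeg v hv
      split_ifs with h
      · omega
      · omega
    have h4 : E₀.card ≤ b := (Finset.card_image_le.trans (Finset.card_filter_le _ _)).trans hSb
    have h5 := Finset.card_union_le D₃ E₀
    omega
  refine ⟨hcard, ?_, ?_, ?_⟩
  · by_cases hne : (D₃ ∪ E₀).Nonempty
    · have hne' : W'.Nonempty := by
        obtain ⟨v, hv⟩ := hne
        rcases Finset.mem_union.1 hv with h | h
        · exact ⟨v, (Finset.mem_filter.1 h).1⟩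
        · rw [hE0, Finset.mem_image] at h
          obtain ⟨e, he, rfl⟩ := h
          rw [hSS, Finset.mem_filter] at he
          exact ⟨_, he.2 _ (hout e)⟩
      have h1 := edges_le G S b hSb hac _ hne
      have h2 := (hcard hne').1
      omega
    · rw [Finset.not_nonempty_iff_eq_empty.1 hne, numEdgesIn_empty]
      omega
  · intro v hv hv0
    have h1 := hdeg v hv
    have h2 : ¬ 3 ≤ {u | u ∈ W' ∧ G.Adj v u}.ncard := by
      intro h
      exact hv0 (Finset.mem_union_left _ (Finset.mem_filter.2 ⟨hv, h⟩))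
    omega
  · intro X hX hXW hXd
    obtain ⟨x, hx, hx1⟩ := forest_leaf _ hac X hX
    refine ⟨x, hx, le_trans (Set.ncard_le_ncard ?_ (Set.toFinite _)) hx1⟩
    rintro y ⟨hy, hxy⟩
    refine ⟨hy, ?_⟩
    rw [SimpleGraph.deleteEdges_adj]
    refine ⟨hxy, ?_⟩
    intro hmem
    have he : s(x, y) ∈ SS := by
      rw [hSS, Finset.mem_filter]
      refine ⟨hmem, ?_⟩
      intro z hz
      rcases Sym2.mem_iff.1 hz with rfl | rfl
      · exact hXW hx
      · exact hXW hy
    have h0 : (Quot.out s(x, y)).1 ∈ D₃ ∪ E₀ :=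
      Finset.mem_union_right _ (Finset.mem_image_of_mem _ he)
    have h1 : (Quot.out s(x, y)).1 ∈ X := by
      rcases Sym2.mem_iff.1 (hout s(x, y)) with h | h
      · rw [h]; exact hx
      · rw [h]; exact hy
    exact (Finset.disjoint_left.1 hXd) h1 h0

end Pool.Agent.Lib.MP_b1acb3_co.Cyc
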