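import Pool.Agent.Lib.MP_b1acb3_co.Cyc.Embed

/-!
Assembly, part 3: the theorem on long ears.
-/

namespace Pool.Agent.Lib.MP_b1acb3_co.Cyc

open Finset

theorem balanced_mono {ε ε' : ℝ} {n K : ℕ} {c : Sym2 (Fin n) → Fin K} (h : ε ≤ ε')
    (hc : IsBalanced ε c) : IsBalanced ε' c := by
  intro i k
  refine le_trans ?_ (hc i k)
  have h1 : (0 : ℝ) ≤ n := Nat.cast_nonneg _
  have h2 : (0 : ℝ) ≤ K := Nat.cast_nonneg _
  apply div_le_div_of_nonneg_right _ h2
  exact mul_le_mul_of_nonneg_right (by linarith) h1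

theorem exists_small {q : ℕ} (δ : Fin q → ℝ) (h : ∀ i, 0 < δ i) :
    ∃ δ' : ℝ, 0 < δ' ∧ ∀ i, δ' ≤ δ i := by
  rcases Nat.eq_zero_or_pos q with rfl | hq
  · exact ⟨1, one_pos, fun i => i.elim0⟩
  · have : Nonempty (Fin q) := ⟨⟨0, hq⟩⟩
    obtain ⟨i, _, hi⟩ := exists_min_image (univ : Finset (Fin q)) δ univ_nonempty
    exact ⟨δ i, h i, fun j => hi j (mem_univ j)⟩

theorem long_ears (h0 : StCore) (h1 : StExact) (h3 : StPath) (h4 : StBlocks) (h5 : StCount) :
    StLongEars := by
  classical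
  intro V _ G W W₀ q k d m P d₁ hW hP hdeg hcore hk hch hsp
  set K := numEdges G + 1 with hKdef
  have hK : 0 < K := Nat.succ_pos _
  have hdk : d < k := by
    by_contra hcon
    push Not at hcon
    have h6 : k.choose d ≤ 1 := by
      rcases Nat.eq_or_lt_of_le hcon with h | h
      · rw [h, Nat.choose_self]
      · rw [Nat.choose_eq_zero_of_lt h]
        exact Nat.zero_le _
    have h7 : 1 ≤ K ^ 2 := Nat.one_le_pow _ _ hK
    omega
  have hcount := (h5 V G W W₀ q k m P (by omega) hP).1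
  choose δ' hδ' N' hN' using fun i : Fin q => h3 K (m i + 1) (Fintype.card V) hK
  obtain ⟨δ, hδ, hδle⟩ := exists_small δ' hδ'
  obtain ⟨ε₁, hε₁, hexact⟩ := h1 K hK δ hδ
  obtain ⟨ε₀, hε₀, n₀, hcore'⟩ := h0 V G W₀ d₁ hdeg hcore
  refine ⟨min ε₀ (min ε₁ (1 / 2)), lt_min hε₀ (lt_min hε₁ (by norm_num)),
    n₀ + ∑ i, N' i + 2 * K * Fintype.card V + 1, ?_⟩
  intro n hn c hc
  have hn0 : 0 < n := by omega
  have hnc : n₀ ≤ n := by omega
  have hn' : ∀ i, N' i ≤ n := by
    intro i
    have : N' i ≤ ∑ i, N' i := single_le_sum (fun _ _ => Nat.zero_le _) (mem_univ i)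
    omega
  have hbig : 2 * K * Fintype.card V < n := by omega
  obtain ⟨f₀, hf₀, hf₀'⟩ := hcore' n hnc c (balanced_mono (min_le_left _ _) hc)
  obtain ⟨B, hB, hBle⟩ := hexact n hn0 c
    (balanced_mono ((min_le_right _ _).trans (min_le_left _ _)) hc)
  have hlow : ∀ i k, Fintype.card V < colourDegree c i k := by
    intro i k
    have h6 := (balanced_mono ((min_le_right _ _).trans (min_le_right _ _)) hc) i k
    have hKR : (0 : ℝ) < (numEdges G + 1 : ℕ) := by exact_mod_cast hK
    have h7 : (2 * (numEdges G + 1 : ℕ) * Fintype.card V : ℝ) < n := by exact_mod_cast hbig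
    have h8 : (Fintype.card V : ℝ) < (1 - 1 / 2) * n / (numEdges G + 1 : ℕ) := by
      rw [lt_div_iff₀ hKR]
      linarith
    exact_mod_cast h8.trans_le h6
  set F : Finset (Fin K) := (edgesIn G W₀).image (fun e => c (e.map f₀)) with hF
  have hFcard : F.card = numEdgesIn G W₀ := by
    rw [hF, card_image_of_injOn hf₀', card_edgesIn]
  obtain ⟨w, hw1, hw2, hw3, hw4⟩ := words h4 n K B hB hK q k d m F (fun i => f₀ (P i 0))
    (fun i => f₀ (P i (m i + 1))) hdk hP.long (by rw [hFcard]; exact hk) hch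
    (by rw [hFcard, ← hcount]; exact hsp)
  have hwne : ∀ i, w i ≠ [] := by
    intro i h
    have := hw1 i
    rw [h, List.length_nil] at this
    omega
  obtain ⟨f, hf, hfW, hfc⟩ := embed_ears G W W₀ q k m P hP c f₀ hf₀ w hw1
    (by
      intro i Z hZ
      exact hN' i n (hn' i) c B hB.nonneg
        (fun k a b => (hBle k a b).trans (by have := hδle i; linarith)) (w i) _ _ Z (hw1 i)
        (hwne i) hZ (hw2 i)) q le_rfl
  have hfW0 : ∀ e ∈ edgesIn G W₀, e.map f = e.map f₀ := by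
    intro e he
    exact map_congr_of e f f₀ (fun x hx => hfW x (((mem_edgesIn G W₀ e).1 he).2 x hx))
  have hinj : Set.InjOn (fun e : Sym2 V => c (e.map f)) (edgesIn G W : Set (Sym2 V)) := by
    have hear : ∀ (i : Fin q) (j : ℕ), j ≤ m i → ∃ hj : j < (w i).length,
        c ((s(P i j, P i (j + 1)) : Sym2 V).map f) = (w i)[j] := by
      intro i j hj
      have hj' : j < (w i).length := by rw [hw1]; omega
      refine ⟨hj', ?_⟩
      rw [Sym2.map_mk]
      exact hfc i i.isLt j hj'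
    intro a ha b hb hab
    simp only at hab
    rcases edge_cases G W W₀ q k m P hP a ha with ha' | ⟨i, j, hj, rfl⟩
    · rcases edge_cases G W W₀ q k m P hP b hb with hb' | ⟨i', j', hj', rfl⟩
      · rw [hfW0 a ha', hfW0 b hb'] at hab
        exact hf₀' ha' hb' hab
      · exfalso
        obtain ⟨hl, hcol⟩ := hear i' j' hj'
        rw [hcol, hfW0 a ha'] at hab
        apply hw4 i' j' hl
        rw [← hab, hF]
        exact mem_image_of_mem _ ha'
    · obtain ⟨hl, hcol⟩ := hear i j hj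
      rcases edge_cases G W W₀ q k m P hP b hb with hb' | ⟨i', j', hj', rfl⟩
      · exfalso
        rw [hcol, hfW0 b hb'] at hab
        apply hw4 i j hl
        rw [hab, hF]
        exact mem_image_of_mem _ hb'
      · obtain ⟨hl', hcol'⟩ := hear i' j' hj'
        rw [hcol, hcol'] at hab
        obtain ⟨rfl, rfl⟩ := hw3 i j hl i' j' hl' hab
        rfl
  obtain ⟨g, hg1, hg2⟩ := extend G W hW c hlow f hf hinj ((univ : Finset V).card - W.card) univ
    (subset_univ _) (by have := card_le_card (subset_univ W); omega)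
  refine ⟨g, hg1, ?_⟩
  intro a ha b hb hab
  exact hg2 ((mem_edgesIn G univ a).2 ⟨ha, fun _ _ => mem_univ _⟩)
    ((mem_edgesIn G univ b).2 ⟨hb, fun _ _ => mem_univ _⟩) hab

end Pool.Agent.Lib.MP_b1acb3_co.Cyc
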