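import Pool.Agent.Lib.MP_b1acb3_co.Cyc.Stmts

/-!
(C12) The parity obstruction for one edge outside an even subgraph.
-/

namespace Pool.Agent.Lib.MP_b1acb3_co.Cyc

open Finset

namespace Neg2

set_option linter.unusedSectionVars false

variable {F : Type} [Field F] [CharP F 2] [Fintype F]

/-- the label of a vertex -/
def lab {K m : ℕ} (φ : Fin K ≃ F) (x : Fin (m * K)) : F := φ (finProdFinEquiv.symm x).2

/-- the sum of the labels of the end vertices -/
def sm {K m : ℕ} (φ : Fin K ≃ F) : Sym2 (Fin (m * K)) → F :=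
  Sym2.lift ⟨fun x y => lab φ x + lab φ y, fun _ _ => add_comm _ _⟩

theorem sm_mk {K m : ℕ} (φ : Fin K ≃ F) (x y : Fin (m * K)) :
    sm φ s(x, y) = lab φ x + lab φ y := rfl

theorem card_lab {K m : ℕ} (φ : Fin K ≃ F) (t : F) [DecidableEq F] :
    (univ.filter fun x : Fin (m * K) => lab φ x = t).card = m := by
  have h1 : (univ.filter fun x : Fin (m * K) => lab φ x = t) =
      (univ.filter fun p : Fin m × Fin K => p.2 = φ.symm t).map
        finProdFinEquiv.toEmbedding := by
    ext x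
    rw [mem_filter, mem_map]
    constructor
    · rintro ⟨-, h⟩
      refine ⟨finProdFinEquiv.symm x, ?_, finProdFinEquiv.apply_symm_apply x⟩
      rw [mem_filter]
      refine ⟨mem_univ _, ?_⟩
      rw [← h, lab, Equiv.symm_apply_apply]
    · rintro ⟨p, hp, rfl⟩
      rw [mem_filter] at hp
      refine ⟨mem_univ _, ?_⟩
      rw [lab]
      simp only [Equiv.coe_toEmbedding, Equiv.symm_apply_apply]
      rw [hp.2, Equiv.apply_symm_apply]
  rw [h1, card_map]
  have h2 : (univ.filter fun p : Fin m × Fin K => p.2 = φ.symm t) =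
      (univ : Finset (Fin m)) ×ˢ {φ.symm t} := by
    ext p
    rw [mem_filter, mem_product, mem_singleton]
    exact ⟨fun h => ⟨mem_univ _, h.2⟩, fun h => ⟨mem_univ _, h.2⟩⟩
  rw [h2, card_product, card_singleton, mul_one, card_univ, Fintype.card_fin]

theorem degree {K m : ℕ} (φ : Fin K ≃ F) [DecidableEq F] (i : Fin (m * K)) (k : Fin K) :
    colourDegree (fun e => φ.symm (sm φ e)) i k = if φ k = 0 then m - 1 else m := by
  unfold colourDegree
  have h1 : (univ.filter fun j : Fin (m * K) => j ≠ i ∧ φ.symm (sm φ s(i, j)) = k) =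
      (univ.filter fun j : Fin (m * K) => lab φ j = φ k + lab φ i).erase i := by
    ext j
    rw [mem_filter, mem_erase, mem_filter]
    have h2 : φ.symm (sm φ s(i, j)) = k ↔ lab φ j = φ k + lab φ i := by
      rw [Equiv.symm_apply_eq, sm_mk]
      constructor
      · intro h
        rw [← h, add_comm (lab φ i), add_assoc, CharTwo.add_self_eq_zero, add_zero]
      · intro h
        rw [h, add_comm (φ k), ← add_assoc, CharTwo.add_self_eq_zero, zero_add]
    rw [h2]
    tauto
  split_ifs with hk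
  · rw [h1, card_erase_of_mem, card_lab]
    rw [mem_filter]
    exact ⟨mem_univ _, by rw [hk, zero_add]⟩
  · rw [h1, erase_eq_of_notMem, card_lab]
    rw [mem_filter]
    rintro ⟨-, h⟩
    exact hk (by simpa using h)

theorem no_rainbow2 {V : Type} [Fintype V] (G : SimpleGraph V) {K m : ℕ} (φ : Fin K ≃ F)
    (hK : numEdges G + 1 = K) (hK4 : 4 ≤ K) (e₀ : Sym2 V) (he₀ : e₀ ∈ G.edgeSet)
    (heven : ∀ v, Even {u | G.Adj v u ∧ s(v, u) ≠ e₀}.ncard) :
    ¬ HasRainbowCopy G (fun e : Sym2 (Fin (m * K)) => φ.symm (sm φ e)) := by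
  classical
  rintro ⟨f, -, hinj⟩
  set E : Finset (Sym2 V) := edgesIn G univ with hE
  have hmemE : ∀ e, e ∈ E ↔ e ∈ G.edgeSet := by
    intro e
    rw [hE, mem_edgesIn]
    exact ⟨fun h => h.1, fun h => ⟨h, fun _ _ => mem_univ _⟩⟩
  have hcardF : Fintype.card F = K := by
    rw [← Fintype.card_congr φ, Fintype.card_fin]
  set col : Sym2 V → F := fun e => sm φ (e.map f) with hcol
  have hcol2 : ∀ x y, col s(x, y) = lab φ (f x) + lab φ (f y) := fun x y => rfl
  have hinjE : Set.InjOn col (E : Set (Sym2 V)) := by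
    intro a ha b hb hab
    refine hinj ((hmemE a).1 ha) ((hmemE b).1 hb) ?_
    show φ.symm (sm φ (a.map f)) = φ.symm (sm φ (b.map f))
    exact congrArg _ hab
  have hEcard : (E.image col).card = K - 1 := by
    rw [card_image_of_injOn hinjE, hE, card_edgesIn, numEdgesIn_univ]
    omega
  -- the unused element
  obtain ⟨z, hz⟩ : ∃ z, (E.image col)ᶜ = {z} := by
    rw [← card_eq_one, card_compl, hEcard, hcardF]
    omega
  have htot : ∑ a : F, a = 0 := by
    have := FiniteField.sum_pow_lt_card_sub_one F 1 (by rw [hcardF]; omega)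
    simpa using this
  have h5 : ∑ e ∈ E, col e + z = 0 := by
    rw [← htot, ← sum_add_sum_compl (E.image col), hz, sum_singleton, sum_image hinjE]
  have h6 : ∑ e ∈ E.erase e₀, col e = 0 := by
    refine sum_even (E.erase e₀) ?_ ?_ (fun v => lab φ (f v)) col (fun x y _ => hcol2 x y)
    · intro e he
      exact G.not_isDiag_of_mem_edgeSet ((hmemE e).1 (mem_of_mem_erase he))
    · intro v
      have h7 : {u | s(v, u) ∈ E.erase e₀} = {u | G.Adj v u ∧ s(v, u) ≠ e₀} := by
        ext u
        rw [Set.mem_ofPred_eq, Set.mem_ofPred_eq, mem_erase, hmemE, SimpleGraph.mem_edgeSet]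
        tauto
      rw [h7]
      exact heven v
  have he₀E : e₀ ∈ E := (hmemE e₀).2 he₀
  rw [← add_sum_erase E col he₀E, h6, add_zero] at h5
  have h8 : col e₀ = z := by
    rw [add_eq_zero_iff_eq_neg] at h5
    rw [h5, CharTwo.neg_eq]
  have h9 : z ∈ (E.image col)ᶜ := by rw [hz]; exact mem_singleton_self z
  rw [mem_compl] at h9
  exact h9 (h8 ▸ mem_image_of_mem col he₀E)

end Neg2

open Neg2 in
theorem neg2 : StNeg := by
  classical
  intro V _ G r hr hK ⟨e₀, he₀, heven⟩ ε hε n₀
  have hr0 : r ≠ 0 := by omega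
  have : Fintype (GaloisField 2 r) := Fintype.ofFinite _
  have hcard : Fintype.card (GaloisField 2 r) = numEdges G + 1 := by
    rw [← Nat.card_eq_fintype_card, GaloisField.card 2 r hr0, hK]
  let φ : Fin (numEdges G + 1) ≃ GaloisField 2 r :=
    (Fintype.equivFinOfCardEq hcard).symm
  obtain ⟨M, hM⟩ := exists_nat_gt (1 / ε)
  obtain ⟨m, hm1, hm2⟩ : ∃ m : ℕ, M + 1 ≤ m ∧ n₀ ≤ m := ⟨max (M + 1) n₀, le_max_left _ _,
    le_max_right _ _⟩
  have hme : 1 ≤ ε * m := by
    have h1 : (M : ℝ) ≤ m := by exact_mod_cast (by omega : M ≤ m)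
    have h2 : 1 / ε < m := by linarith
    rw [div_lt_iff₀ hε] at h2
    linarith
  have hdeg := degree (m := m) φ
  refine ⟨m * (numEdges G + 1), ?_, fun e => φ.symm (sm φ e), ?_, ?_, ?_⟩
  · calc n₀ ≤ m := hm2
      _ ≤ m * (numEdges G + 1) := Nat.le_mul_of_pos_right _ (Nat.succ_pos _)
  · intro i k
    rw [hdeg i k]
    have hKpos : (0 : ℝ) < ((numEdges G + 1 : ℕ) : ℝ) := by positivity
    have h1 : (1 - ε) * ((m * (numEdges G + 1) : ℕ) : ℝ) / ((numEdges G + 1 : ℕ) : ℝ) =
        m - ε * m := by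
      rw [Nat.cast_mul]
      field_simp
    rw [h1]
    split_ifs
    · rw [Nat.cast_sub (by omega)]
      push_cast
      linarith
    · linarith
  · intro k
    exact ⟨_, fun i => hdeg i k⟩
  · refine no_rainbow2 G φ rfl ?_ e₀ he₀ heven
    rw [hK]
    calc 4 = 2 ^ 2 := by norm_num
      _ ≤ 2 ^ r := Nat.pow_le_pow_right (by norm_num) hr

end Pool.Agent.Lib.MP_b1acb3_co.Cyc
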