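import Pool.Agent.Lib.MP_b1acb3_co.Cyc.Stmts

/-!
Numerical choice of the length of the blocks.
-/

namespace Pool.Agent.Lib.MP_b1acb3_co.Cyc

open Finset

theorem choose_five (k : ℕ) (hk : 8 ≤ k) : k ^ 5 ≤ 3840 * k.choose 5 := by
  have h1 : k.descFactorial 5 = 120 * k.choose 5 := by
    rw [Nat.descFactorial_eq_factorial_mul_choose]
    rfl
  have h2 : k.descFactorial 5 = k * (k - 1) * (k - 2) * (k - 3) * (k - 4) := by
    simp [Nat.descFactorial]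
    ring
  have h3 : k ^ 5 ≤ 32 * k.descFactorial 5 := by
    rw [h2]
    obtain ⟨t, rfl⟩ : ∃ t, k = t + 8 := ⟨k - 8, by omega⟩
    have e1 : t + 8 - 1 = t + 7 := rfl
    have e2 : t + 8 - 2 = t + 6 := rfl
    have e3 : t + 8 - 3 = t + 5 := rfl
    have e4 : t + 8 - 4 = t + 4 := rfl
    rw [e1, e2, e3, e4]
    have h4 : t + 8 ≤ 2 * (t + 4) := by omega
    calc (t + 8) ^ 5 = (t + 8) * (t + 8) * (t + 8) * (t + 8) * (t + 8) := by ring
      _ ≤ (t + 8) * (2 * (t + 7)) * (2 * (t + 6)) * (2 * (t + 5)) * (2 * (t + 4)) := by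
          gcongr <;> omega
      _ = 16 * ((t + 8) * (t + 7) * (t + 6) * (t + 5) * (t + 4)) := by ring
      _ ≤ 32 * ((t + 8) * (t + 7) * (t + 6) * (t + 5) * (t + 4)) :=
          Nat.mul_le_mul_right _ (by norm_num)
  omega

theorem num : StNum := by
  refine ⟨10 ^ 20, by norm_num, ?_⟩
  intro b e hb he
  -- `s = ⌊√e⌋`
  set s := Nat.sqrt e with hs
  have hs1 : s ^ 2 ≤ e := Nat.sqrt_le' e
  have hs2 : e < (s + 1) ^ 2 := Nat.lt_succ_sqrt' e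
  have hsb : 10 ^ 10 * b ^ 5 ≤ s := by
    rw [hs, Nat.le_sqrt']
    calc (10 ^ 10 * b ^ 5) ^ 2 = 10 ^ 20 * b ^ 10 := by ring
      _ ≤ e := he
  have hb5 : b ≤ b ^ 5 := Nat.le_self_pow (by norm_num) b
  -- `k = ⌊s / (5 b)⌋ - 1`
  set t := s / (5 * b) with ht
  have h5b : 0 < 5 * b := by omega
  have ht1 : 5 * b * t ≤ s := Nat.mul_div_le s (5 * b)
  have ht2 : s < 5 * b * (t + 1) := by
    have := Nat.lt_mul_div_succ s h5b
    exact this
  have hpos : 1 ≤ b ^ 4 := Nat.one_le_pow _ _ hb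
  have htbig : 10 ^ 9 ≤ t := by
    rw [ht, Nat.le_div_iff_mul_le h5b]
    calc 10 ^ 9 * (5 * b) ≤ 10 ^ 10 * b := by omega
      _ ≤ 10 ^ 10 * b ^ 5 := Nat.mul_le_mul_left _ hb5
      _ ≤ s := hsb
  refine ⟨t - 1, ?_, ?_⟩
  · have hk : 8 ≤ t - 1 := by omega
    have h1 := choose_five (t - 1) hk
    -- lower bound for `t - 1`
    have h2 : s ≤ 6 * b * (t - 1) := by
      obtain ⟨u, hu⟩ : ∃ u, t = u + 1 := ⟨t - 1, by omega⟩
      rw [hu] at ht2 htbig ⊢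
      rw [Nat.add_sub_cancel]
      have h3 : 5 * b * (u + 1 + 1) ≤ 6 * b * u := by
        have h4 : b * 10 ≤ b * u := Nat.mul_le_mul_left _ (by omega)
        nlinarith
      omega
    have h3 : s ^ 5 ≤ 7776 * b ^ 5 * (t - 1) ^ 5 := by
      calc s ^ 5 ≤ (6 * b * (t - 1)) ^ 5 := Nat.pow_le_pow_left h2 5
        _ = _ := by ring
    have h4 : s ^ 5 ≤ 7776 * 3840 * b ^ 5 * (t - 1).choose 5 := by
      calc s ^ 5 ≤ 7776 * b ^ 5 * (t - 1) ^ 5 := h3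
        _ ≤ 7776 * b ^ 5 * (3840 * (t - 1).choose 5) := Nat.mul_le_mul_left _ h1
        _ = _ := by ring
    have h5 : 10 ^ 10 * b ^ 5 * s ^ 4 ≤ s ^ 5 := by
      calc 10 ^ 10 * b ^ 5 * s ^ 4 ≤ s * s ^ 4 := Nat.mul_le_mul_right _ hsb
        _ = _ := by ring
    have hb5pos : 0 < b ^ 5 := Nat.pow_pos hb
    have h6 : 10 ^ 10 * s ^ 4 ≤ 7776 * 3840 * (t - 1).choose 5 := by
      apply Nat.le_of_mul_le_mul_left _ hb5pos
      calc b ^ 5 * (10 ^ 10 * s ^ 4) = 10 ^ 10 * b ^ 5 * s ^ 4 := by ring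
        _ ≤ 7776 * 3840 * b ^ 5 * (t - 1).choose 5 := h5.trans h4
        _ = _ := by ring
    have h7 : e + 1 ≤ 2 * s ^ 2 := by
      have : 10 ≤ s := by
        have : 1 ≤ b ^ 5 := Nat.one_le_pow _ _ hb
        omega
      nlinarith
    have h8 : 16 * (e + 1) ^ 2 ≤ 64 * s ^ 4 := by
      calc 16 * (e + 1) ^ 2 ≤ 16 * (2 * s ^ 2) ^ 2 :=
            Nat.mul_le_mul_left _ (Nat.pow_le_pow_left h7 2)
        _ = _ := by ring
    omega
  · have h1 : t - 1 + 1 = t := by omega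
    rw [h1]
    calc 24 * b ^ 2 * t ^ 2 ≤ (5 * b * t) ^ 2 := by nlinarith [Nat.zero_le (b ^ 2 * t ^ 2)]
      _ ≤ s ^ 2 := Nat.pow_le_pow_left ht1 2
      _ ≤ e := hs1

end Pool.Agent.Lib.MP_b1acb3_co.Cyc
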