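import Pool.Agent.Lib.MP_b1acb3_co.Cyc.Stmts

/-!
C3: from the kernel of a word to a path in the coloured complete graph.
-/

namespace Pool.Agent.Lib.MP_b1acb3_co.Cyc

open Finset

namespace PathAux

variable {n K : ℕ}

/-- A path with colours `w` from `x` to `y` whose inner vertices are distinct and avoid `Z`. -/
def HasPath (c : Sym2 (Fin n) → Fin K) (w : List (Fin K)) (x y : Fin n) (Z : Finset (Fin n)) :
    Prop :=
  ∃ z : ℕ → Fin n, z 0 = x ∧ z w.length = y ∧
    (∀ (i : ℕ) (hi : i < w.length), c s(z i, z (i + 1)) = w[i]) ∧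
    (∀ i, 1 ≤ i → i < w.length → z i ∉ Z) ∧
    (∀ i j, 1 ≤ i → i < w.length → 1 ≤ j → j < w.length → z i = z j → i = j)

lemma HasPath.cons {c : Sym2 (Fin n) → Fin K} {w : List (Fin K)} {x z1 y : Fin n}
    {Z : Finset (Fin n)} {a : Fin K} (h : HasPath c w z1 y (insert z1 Z)) (hz : z1 ∉ Z)
    (ha : c s(x, z1) = a) : HasPath c (a :: w) x y Z := by
  obtain ⟨z, h0, h1, h2, h3, h4⟩ := h
  refine ⟨fun i => if i = 0 then x else z (i - 1), ?_, ?_, ?_, ?_, ?_⟩
  · simp
  · simp only [List.length_cons]
    rw [if_neg (by omega), Nat.add_sub_cancel]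
    exact h1
  · intro i hi
    rcases Nat.eq_zero_or_pos i with h5 | h5
    · subst h5
      simp [h0, ha]
    · obtain ⟨j, rfl⟩ : ∃ j, i = j + 1 := ⟨i - 1, by omega⟩
      have h6 : j < w.length := by
        simp only [List.length_cons] at hi
        omega
      have h7 := h2 j h6
      simpa using h7
  · intro i hi1 hi2
    simp only [List.length_cons] at hi2
    show (if i = 0 then x else z (i - 1)) ∉ Z
    rw [if_neg (by omega)]
    rcases Nat.lt_or_ge 1 i with h5 | h5
    · exact fun h6 => h3 (i - 1) (by omega) (by omega) (mem_insert_of_mem h6)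
    · have h6 : i - 1 = 0 := by omega
      rw [h6, h0]
      exact hz
  · intro i j hi1 hi2 hj1 hj2 hij
    simp only [List.length_cons] at hi2 hj2
    change (if i = 0 then x else z (i - 1)) = (if j = 0 then x else z (j - 1)) at hij
    rw [if_neg (by omega), if_neg (by omega)] at hij
    rcases Nat.lt_or_ge 1 i with h5 | h5
    · rcases Nat.lt_or_ge 1 j with h6 | h6
      · have := h4 (i - 1) (j - 1) (by omega) (by omega) (by omega) (by omega) hij
        omega
      · exfalso
        have h7 : j - 1 = 0 := by omega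
        rw [h7, h0] at hij
        exact h3 (i - 1) (by omega) (by omega) (by rw [hij]; exact mem_insert_self _ _)
    · rcases Nat.lt_or_ge 1 j with h6 | h6
      · exfalso
        have h7 : i - 1 = 0 := by omega
        rw [h7, h0] at hij
        exact h3 (j - 1) (by omega) (by omega) (by rw [← hij]; exact mem_insert_self _ _)
      · omega

lemma wker_single (B : Fin K → Matrix (Fin n) (Fin n) ℝ) (a : Fin K) (x y : Fin n) :
    wker B [a] x y = (K : ℝ) / n * B a x y := by
  simp [wker, nrm]

lemma wker_cons (B : Fin K → Matrix (Fin n) (Fin n) ℝ) (a : Fin K) (w : List (Fin K))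
    (x y : Fin n) : wker B (a :: w) x y = ∑ z, ((K : ℝ) / n * B a x z) * wker B w z y := by
  simp [wker, nrm, Matrix.mul_apply]

lemma n_mul_wker_cons (B : Fin K → Matrix (Fin n) (Fin n) ℝ) (a : Fin K) (w : List (Fin K))
    (x y : Fin n) : (n : ℝ) * wker B (a :: w) x y =
      ∑ z, ((K : ℝ) / n * B a x z) * ((n : ℝ) * wker B w z y) := by
  rw [wker_cons, mul_sum]
  exact sum_congr rfl fun z _ => by ring

lemma wker_bound (B : Fin K → Matrix (Fin n) (Fin n) ℝ) (h0 : ∀ k i j, 0 ≤ B k i j)
    (h2 : ∀ k i j, B k i j ≤ 2) : ∀ (w : List (Fin K)) (x y : Fin n), w ≠ [] →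
      0 ≤ (n : ℝ) * wker B w x y ∧ (n : ℝ) * wker B w x y ≤ (2 * K : ℝ) ^ w.length := by
  intro w
  induction w with
  | nil => exact fun _ _ h => absurd rfl h
  | cons a w ih =>
    intro x y _
    have hn : (0 : ℝ) < n := by
      have : 0 < n := Fin.pos x
      exact_mod_cast this
    have hK : (0 : ℝ) ≤ K := Nat.cast_nonneg _
    by_cases hw : w = []
    · subst hw
      rw [wker_single]
      have e1 : (n : ℝ) * ((K : ℝ) / n * B a x y) = K * B a x y := by
        field_simp
      rw [e1]
      refine ⟨mul_nonneg hK (h0 a x y), ?_⟩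
      simp only [List.length_cons, List.length_nil, zero_add, pow_one]
      nlinarith [h2 a x y, mul_le_mul_of_nonneg_left (h2 a x y) hK]
    · rw [n_mul_wker_cons]
      refine ⟨sum_nonneg fun z _ => mul_nonneg (mul_nonneg (by positivity) (h0 a x z))
        (ih z y hw).1, ?_⟩
      have h3 : ∀ z ∈ (univ : Finset (Fin n)), ((K : ℝ) / n * B a x z) *
          ((n : ℝ) * wker B w z y) ≤ (K : ℝ) / n * 2 * (2 * K : ℝ) ^ w.length := by
        intro z _
        refine mul_le_mul ?_ (ih z y hw).2 (ih z y hw).1 (by positivity)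
        exact mul_le_mul_of_nonneg_left (h2 a x z) (by positivity)
      refine (sum_le_sum h3).trans ?_
      rw [sum_const, card_univ, Fintype.card_fin, nsmul_eq_mul, List.length_cons, pow_succ]
      apply le_of_eq
      field_simp

lemma claim (K : ℕ) (hK : 0 < K) : ∀ (l : ℕ) (η : ℝ) (v : ℕ), 0 < η →
    ∃ δ : ℝ, 0 < δ ∧ ∃ n₀ : ℕ, ∀ n : ℕ, n₀ ≤ n →
      ∀ (c : Sym2 (Fin n) → Fin K) (B : Fin K → Matrix (Fin n) (Fin n) ℝ),
      (∀ k i j, 0 ≤ B k i j) →
      (∀ k i j, B k i j ≤ (if c s(i, j) = k then 1 else 0) + δ) →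
      ∀ (w : List (Fin K)) (x y : Fin n) (Z : Finset (Fin n)), w.length = l + 1 →
        Z.card ≤ v → η ≤ (n : ℝ) * wker B w x y → HasPath c w x y Z := by
  have hKR : (0 : ℝ) < K := by exact_mod_cast hK
  intro l
  induction l with
  | zero =>
    intro η v hη
    refine ⟨η / (2 * K), by positivity, 0, ?_⟩
    intro n _ c B hB0 hB1 w x y Z hw _ hη'
    obtain ⟨a, rfl⟩ := List.length_eq_one_iff.mp hw
    have hn : (0 : ℝ) < n := by
      have : 0 < n := Fin.pos x
      exact_mod_cast this
    rw [wker_single] at hη'
    have e1 : (n : ℝ) * ((K : ℝ) / n * B a x y) = K * B a x y := by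
      field_simp
    rw [e1] at hη'
    have hc : c s(x, y) = a := by
      by_contra hne
      have h1 := hB1 a x y
      rw [if_neg hne, zero_add] at h1
      have h2 : (K : ℝ) * B a x y ≤ K * (η / (2 * K)) := mul_le_mul_of_nonneg_left h1 hKR.le
      have h3 : (K : ℝ) * (η / (2 * K)) = η / 2 := by
        field_simp
      linarith
    refine ⟨fun i => if i = 0 then x else y, by simp, by simp, ?_, ?_, ?_⟩
    · intro i hi
      have : i = 0 := by
        simp only [List.length_cons, List.length_nil] at hi
        omega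
      subst this
      simp [hc]
    · intro i h1 h2
      simp only [List.length_cons, List.length_nil] at h2
      omega
    · intro i j h1 h2 h3 h4
      simp only [List.length_cons, List.length_nil] at h2
      omega
  | succ l ih =>
    intro η v hη
    set M : ℝ := (2 * K : ℝ) ^ (l + 1) with hM
    have hMpos : 0 < M := by positivity
    obtain ⟨δ', hδ', n₀', hih⟩ := ih (η / (4 * K)) (v + 1) (by positivity)
    refine ⟨min (min δ' 1) (η / (4 * K * M)), by positivity,
      max n₀' (⌈8 * v * K * M / η⌉₊ + 1), ?_⟩
    intro n hn c B hB0 hB1 w x y Z hw hZ hη'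
    have hm1 : min (min δ' 1) (η / (4 * K * M)) ≤ δ' := (min_le_left _ _).trans (min_le_left _ _)
    have hm2 : min (min δ' 1) (η / (4 * K * M)) ≤ 1 := (min_le_left _ _).trans (min_le_right _ _)
    have hm3 : min (min δ' 1) (η / (4 * K * M)) ≤ η / (4 * K * M) := min_le_right _ _
    have hδ1 : ∀ k i j, B k i j ≤ (if c s(i, j) = k then 1 else 0) + δ' := fun k i j =>
      (hB1 k i j).trans (by linarith)
    have hδ2 : ∀ k i j, B k i j ≤ (if c s(i, j) = k then 1 else 0) + 1 := fun k i j =>
      (hB1 k i j).trans (by linarith)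
    have hδ3 : ∀ k i j, B k i j ≤ (if c s(i, j) = k then 1 else 0) + η / (4 * K * M) :=
      fun k i j => (hB1 k i j).trans (by linarith)
    have hB2 : ∀ k i j, B k i j ≤ 2 := fun k i j => (hδ2 k i j).trans (by
      split_ifs <;> norm_num)
    match w, hw with
    | a :: w', hw =>
      have hlen : w'.length = l + 1 := by
        simp only [List.length_cons] at hw
        omega
      have hne : w' ≠ [] := by
        rintro rfl
        simp at hlen
      have hn0 : (0 : ℝ) < n := by
        have : 0 < n := Fin.pos x
        exact_mod_cast this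
      have hnbig : 8 * v * K * M / η ≤ n := by
        have h1 : (⌈8 * v * K * M / η⌉₊ : ℝ) + 1 ≤ n := by
          exact_mod_cast (le_max_right _ _).trans hn
        linarith [Nat.le_ceil (8 * v * K * M / η)]
      have hex : ∃ z1 : Fin n, z1 ∉ Z ∧ c s(x, z1) = a ∧
          η / (4 * K) ≤ (n : ℝ) * wker B w' z1 y := by
        by_contra hcon
        push Not at hcon
        rw [n_mul_wker_cons] at hη'
        have hb : ∀ z ∈ (univ : Finset (Fin n)), ((K : ℝ) / n * B a x z) *
            ((n : ℝ) * wker B w' z y) ≤ (K : ℝ) / n * (η / (4 * K * M)) * M +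
              (K : ℝ) / n * (η / (4 * K)) + (if z ∈ Z then (K : ℝ) / n * 2 * M else 0) := by
          intro z _
          obtain ⟨g1, g2⟩ := wker_bound B hB0 hB2 w' z y hne
          rw [hlen] at g2
          by_cases hz : z ∈ Z
          · rw [if_pos hz]
            have h1 : ((K : ℝ) / n * B a x z) * ((n : ℝ) * wker B w' z y) ≤
                (K : ℝ) / n * 2 * M := by
              refine mul_le_mul ?_ g2 g1 (by positivity)
              exact mul_le_mul_of_nonneg_left (hB2 a x z) (by positivity)
            have h2 : 0 ≤ (K : ℝ) / n * (η / (4 * K * M)) * M := by positivity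
            have h3 : 0 ≤ (K : ℝ) / n * (η / (4 * K)) := by positivity
            linarith
          · rw [if_neg hz, add_zero]
            by_cases hc : c s(x, z) = a
            · have h1 := hcon z hz hc
              have h2 := hδ3 a x z
              rw [if_pos hc] at h2
              calc ((K : ℝ) / n * B a x z) * ((n : ℝ) * wker B w' z y)
                  ≤ ((K : ℝ) / n * (1 + η / (4 * K * M))) * ((n : ℝ) * wker B w' z y) :=
                    mul_le_mul_of_nonneg_right (mul_le_mul_of_nonneg_left h2 (by positivity)) g1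
                _ = (K : ℝ) / n * (η / (4 * K * M)) * ((n : ℝ) * wker B w' z y) +
                    (K : ℝ) / n * ((n : ℝ) * wker B w' z y) := by ring
                _ ≤ (K : ℝ) / n * (η / (4 * K * M)) * M + (K : ℝ) / n * (η / (4 * K)) :=
                    add_le_add (mul_le_mul_of_nonneg_left g2 (by positivity))
                      (mul_le_mul_of_nonneg_left h1.le (by positivity))
            · have h2 := hδ3 a x z
              rw [if_neg hc, zero_add] at h2
              have h1 : ((K : ℝ) / n * B a x z) * ((n : ℝ) * wker B w' z y) ≤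
                  (K : ℝ) / n * (η / (4 * K * M)) * M := by
                refine mul_le_mul ?_ g2 g1 (by positivity)
                exact mul_le_mul_of_nonneg_left h2 (by positivity)
              have h3 : 0 ≤ (K : ℝ) / n * (η / (4 * K)) := by positivity
              linarith
        have hs := hη'.trans (sum_le_sum hb)
        rw [sum_add_distrib, sum_const, card_univ, Fintype.card_fin, nsmul_eq_mul,
          ← sum_filter, sum_const, nsmul_eq_mul] at hs
        have e1 : (n : ℝ) * ((K : ℝ) / n * (η / (4 * K * M)) * M + (K : ℝ) / n * (η / (4 * K))) =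
            η / 2 := by
          field_simp
          norm_num
        rw [e1] at hs
        have hcard : ((univ.filter (fun z => z ∈ Z)).card : ℝ) ≤ v := by
          have h1 : univ.filter (fun z => z ∈ Z) = Z := by
            ext z
            simp
          rw [h1]
          exact_mod_cast hZ
        have h4 : ((univ.filter (fun z => z ∈ Z)).card : ℝ) * ((K : ℝ) / n * 2 * M) ≤
            v * ((K : ℝ) / n * 2 * M) := mul_le_mul_of_nonneg_right hcard (by positivity)
        have h5 : (v : ℝ) * ((K : ℝ) / n * 2 * M) ≤ η / 4 := by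
          rw [div_le_iff₀ hη] at hnbig
          have h6 : (v : ℝ) * ((K : ℝ) / n * 2 * M) = (2 * v * K * M) / n := by
            field_simp
          rw [h6, div_le_iff₀ hn0]
          nlinarith
        linarith
      obtain ⟨z1, hz1, hc, hz2⟩ := hex
      refine HasPath.cons (hih n ((le_max_left _ _).trans hn) c B hB0 hδ1 w' z1 y (insert z1 Z)
        hlen ?_ hz2) hz1 hc
      exact (card_insert_le _ _).trans (by omega)

end PathAux

/-- (C3) From the kernel of a word to a path in the coloured complete graph. -/
theorem path : StPath := by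
  intro K l v hK
  rcases Nat.eq_zero_or_pos l with h0 | h0
  · refine ⟨1, one_pos, 0, ?_⟩
    intro n _ c B _ _ w x y Z hw hne
    subst h0
    exact absurd (List.length_eq_zero_iff.mp hw) hne
  · obtain ⟨δ, hδ, n₀, h⟩ := PathAux.claim K hK (l - 1) (1 / 2) v (by norm_num)
    refine ⟨δ, hδ, n₀, ?_⟩
    intro n hn c B hB0 hB1 w x y Z hw _ hZ hη
    obtain ⟨z, h1, h2, h3, h4, h5⟩ := h n hn c B hB0 hB1 w x y Z (by omega) hZ hη
    subst hw
    exact ⟨z, h1, h2, h3, h4, h5⟩

end Pool.Agent.Lib.MP_b1acb3_co.Cyc
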