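import Pool.Agent.Lib.MP_b1acb3_co.Cyc.Stmts

/-!
Module C8: the ears with fewer than `k` inner vertices can be moved to `W₀`.
-/

namespace Pool.Agent.Lib.MP_b1acb3_co.Cyc

open Finset

theorem short_ears : StShort := by
  classical
  intro V _ G W W₀ q k m P hk hE
  -- the inner vertices of the short ears
  let T : Finset V := ((Finset.univ : Finset (Fin q × Fin k)).filter
    (fun a => m a.1 < k ∧ 1 ≤ (a.2 : ℕ) ∧ (a.2 : ℕ) ≤ m a.1)).image (fun a => P a.1 a.2)
  have hT : ∀ v, v ∈ T ↔ ∃ i j, m i < k ∧ 1 ≤ j ∧ j ≤ m i ∧ P i j = v := by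
    intro v
    simp only [T, Finset.mem_image, Finset.mem_filter, Finset.mem_univ, true_and, Prod.exists]
    constructor
    · rintro ⟨i, j, ⟨h1, h2, h3⟩, rfl⟩
      exact ⟨i, j, h1, h2, h3, rfl⟩
    · rintro ⟨i, j, h1, h2, h3, rfl⟩
      exact ⟨i, ⟨j, by omega⟩, ⟨h1, h2, h3⟩, rfl⟩
  let W₁ : Finset V := W₀ ∪ T
  have hW1 : ∀ v, v ∈ W₁ ↔ v ∈ W₀ ∨ v ∈ T := by
    intro v; simp [W₁]
  have hW1W : W₁ ⊆ W := by
    intro v hv
    rcases (hW1 v).1 hv with h | h
    · exact hE.sub h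
    · obtain ⟨i, j, _, h2, h3, rfl⟩ := (hT v).1 h
      exact (hE.inner i j h2 h3).1
  let I := {i : Fin q // k ≤ m i}
  let e : Fin (Fintype.card I) ≃ I := (Fintype.equivFin I).symm
  refine ⟨W₁, Fintype.card I, fun i => m (e i).1, fun i => P (e i).1, ?_, ?_, ?_, ?_⟩
  · intro v hv; exact (hW1 v).2 (Or.inl hv)
  · calc Fintype.card I ≤ Fintype.card (Fin q) := Fintype.card_subtype_le _
      _ = q := Fintype.card_fin q
  · refine ⟨hW1W, fun i => (e i).2, ?_, ?_, ?_, ?_, ?_, ?_, ?_, ?_⟩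
    · intro i; exact (hW1 _).2 (Or.inl (hE.start _))
    · intro i; exact (hW1 _).2 (Or.inl (hE.stop _))
    · intro i j h1 h2
      refine ⟨(hE.inner _ j h1 h2).1, fun hmem => ?_⟩
      rcases (hW1 _).1 hmem with h | h
      · exact (hE.inner _ j h1 h2).2 h
      · obtain ⟨i', j', h3, h4, h5, h6⟩ := (hT _).1 h
        obtain ⟨h7, _⟩ := hE.inj i' j' (e i).1 j h4 h5 h1 h2 h6
        have := (e i).2
        rw [← h7] at this
        omega
    · intro i j i' j' h1 h2 h3 h4 h5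
      obtain ⟨h6, h7⟩ := hE.inj _ j _ j' h1 h2 h3 h4 h5
      exact ⟨e.injective (Subtype.ext h6), h7⟩
    · intro v hv hv1
      have hv0 : v ∉ W₀ := fun h => hv1 ((hW1 v).2 (Or.inl h))
      obtain ⟨i, j, h1, h2, h3⟩ := hE.cover v hv hv0
      by_cases hki : k ≤ m i
      · refine ⟨e.symm ⟨i, hki⟩, j, h1, ?_, ?_⟩
        · simpa using h2
        · simpa using h3
      · exact absurd ((hW1 v).2 (Or.inr ((hT v).2 ⟨i, j, by omega, h1, h2, h3⟩))) hv1
    · intro i j h; exact hE.adj _ j h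
    · intro i j u h1 h2 h3 h4; exact hE.only _ j u h1 h2 h3 h4
    · intro i j h1 h2; exact hE.ne _ j h1 h2
  · unfold numEdgesIn
    have hsub : {s ∈ G.edgeSet | ∀ x ∈ s, x ∈ W₁} ⊆ {s ∈ G.edgeSet | ∀ x ∈ s, x ∈ W₀} ∪
        ((fun a : Fin q × Fin k => s(P a.1 a.2, P a.1 ((a.2 : ℕ) + 1))) '' Set.univ) := by
      have key : ∀ x y, G.Adj x y → x ∈ W₁ → y ∈ W₁ → x ∉ W₀ →
          ∃ a : Fin q × Fin k, s(P a.1 a.2, P a.1 ((a.2 : ℕ) + 1)) = s(x, y) := by
        intro x y hxy hx hy hx0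
        rcases (hW1 x).1 hx with h | h
        · exact absurd h hx0
        · obtain ⟨i, j, h1, h2, h3, rfl⟩ := (hT x).1 h
          rcases hE.only i j y h2 h3 (hW1W hy) hxy with h4 | h4
          · refine ⟨(i, ⟨j - 1, by omega⟩), ?_⟩
            have hj : j - 1 + 1 = j := by omega
            simp only [hj, h4]
            exact Sym2.eq_swap
          · refine ⟨(i, ⟨j, by omega⟩), ?_⟩
            simp only [h4]
      intro s hs
      obtain ⟨hsE, hs1⟩ := hs
      induction s using Sym2.ind with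
      | _ x y =>
        have hxy : G.Adj x y := by simpa using hsE
        have hx : x ∈ W₁ := hs1 x (Sym2.mem_mk_left x y)
        have hy : y ∈ W₁ := hs1 y (Sym2.mem_mk_right x y)
        by_cases hx0 : x ∈ W₀
        · by_cases hy0 : y ∈ W₀
          · left
            refine ⟨hsE, ?_⟩
            intro z hz
            rcases Sym2.mem_iff.1 hz with rfl | rfl
            · exact hx0
            · exact hy0
          · right
            obtain ⟨a, ha⟩ := key y x hxy.symm hy hx hy0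
            exact ⟨a, Set.mem_univ _, ha.trans Sym2.eq_swap⟩
        · right
          obtain ⟨a, ha⟩ := key x y hxy hx hy hx0
          exact ⟨a, Set.mem_univ _, ha⟩
    calc {s ∈ G.edgeSet | ∀ x ∈ s, x ∈ W₁}.ncard
        ≤ ({s ∈ G.edgeSet | ∀ x ∈ s, x ∈ W₀} ∪
          ((fun a : Fin q × Fin k => s(P a.1 a.2, P a.1 ((a.2 : ℕ) + 1))) '' Set.univ)).ncard :=
          Set.ncard_le_ncard hsub (Set.toFinite _)
      _ ≤ _ := Set.ncard_union_le _ _
      _ ≤ {s ∈ G.edgeSet | ∀ x ∈ s, x ∈ W₀}.ncard + q * k := by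
          refine Nat.add_le_add_left ?_ _
          calc ((fun a : Fin q × Fin k => s(P a.1 a.2, P a.1 ((a.2 : ℕ) + 1))) '' Set.univ).ncard
              ≤ (Set.univ : Set (Fin q × Fin k)).ncard := Set.ncard_image_le (Set.toFinite _)
            _ = q * k := by simp [Set.ncard_univ, Nat.card_eq_fintype_card]

end Pool.Agent.Lib.MP_b1acb3_co.Cyc
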