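import Pool.Agent.Lib.MP_b1acb3_co.Cyc.Core
import Pool.Agent.Lib.MP_b1acb3_co.Cyc.Exact
import Pool.Agent.Lib.MP_b1acb3_co.Cyc.Ear
import Pool.Agent.Lib.MP_b1acb3_co.Cyc.Path
import Pool.Agent.Lib.MP_b1acb3_co.Cyc.Decomp
import Pool.Agent.Lib.MP_b1acb3_co.Cyc.Short
import Pool.Agent.Lib.MP_b1acb3_co.Cyc.Graph
import Pool.Agent.Lib.MP_b1acb3_co.Cyc.Neg2
import Pool.Agent.Lib.MP_b1acb3_co.Cyc.LongEars
import Pool.Agent.Lib.MP_b1acb3_co.Cyc.Param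
import Pool.Agent.Lib.MP_b1acb3_co.Cyc.Blocks
import Pool.Agent.Lib.MP_b1acb3_co.Cyc.Num
import Pool.Agent.Lib.MP_b1acb3_co.Cyc.Count

/-!
Assembly of the theorem on graphs of bounded cyclomatic number.
-/

namespace Pool.Agent.Lib.MP_b1acb3_co.Cyc

open Finset

/-- Deleting at most `b` edges of `G` leaves a forest: the cyclomatic number of `G` is at most
`b`. -/
def CyclomaticLE {V : Type} (G : SimpleGraph V) (b : ℕ) : Prop :=
  ∃ S : Finset (Sym2 V), S.card ≤ b ∧ (G.deleteEdges (S : Set (Sym2 V))).IsAcyclic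

theorem all_long_ears : StLongEars :=
  long_ears core exact_kernels path (blocks ear) count_ears

theorem all_param : StParam :=
  param all_long_ears decomp short_ears graph_part count_ears

theorem main_param {V : Type} [Fintype V] (G : SimpleGraph V) (W : Finset V) (b k d : ℕ)
    (hb : 1 ≤ b) (hW : TreeLikeOutside G W) (hG : CyclomaticLE G b)
    (hk : 16 * (numEdges G + 1) ^ 2 ≤ k.choose d)
    (hbk : 24 * b ^ 2 * (k + 1) ^ 2 ≤ numEdges G)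
    (h : numEdgesIn G W + (4 * b - 3) * d ≤ numEdges G + 1) : ForcesRainbow G :=
  all_param V G W b k d hb hW hG hk hbk h

theorem main_five : ∃ C : ℕ, ∀ (V : Type) [Fintype V] (G : SimpleGraph V) (W : Finset V) (b : ℕ),
    1 ≤ b → TreeLikeOutside G W → CyclomaticLE G b → C * b ^ 10 ≤ numEdges G →
    numEdgesIn G W + 20 * b ≤ numEdges G + 16 → ForcesRainbow G := by
  obtain ⟨C, _, hC⟩ := num
  refine ⟨C, ?_⟩
  intro V _ G W b hb hW hG he h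
  obtain ⟨k, hk1, hk2⟩ := hC b (numEdges G) hb he
  exact main_param G W b k 5 hb hW hG hk1 hk2 (by omega)

theorem main_neg {V : Type} [Fintype V] (G : SimpleGraph V) (r : ℕ) (hr : 2 ≤ r)
    (h : numEdges G + 1 = 2 ^ r)
    (he : ∃ e₀ ∈ G.edgeSet, ∀ v, Even {u | G.Adj v u ∧ s(v, u) ≠ e₀}.ncard) :
    (∀ ε : ℝ, 0 < ε → ∀ n₀ : ℕ, ∃ n : ℕ, n₀ ≤ n ∧ ∃ c : Sym2 (Fin n) → Fin (numEdges G + 1),
      IsBalanced ε c ∧ (∀ k, ∃ D, ∀ i, colourDegree c i k = D) ∧ ¬ HasRainbowCopy G c) ∧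
    ¬ ForcesRainbow G := by
  have h1 := neg2 V G r hr h he
  refine ⟨h1, ?_⟩
  rintro ⟨ε, hε, n₀, h2⟩
  obtain ⟨n, hn, c, hc1, _, hc3⟩ := h1 ε hε n₀
  exact hc3 (h2 n hn c hc1)

end Pool.Agent.Lib.MP_b1acb3_co.Cyc
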