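import Pool.Agent.Lib.MP_b1acb3_co.Cyc.Stmts

/-!
The parametric theorem on the cyclomatic number, from the modules.
-/

namespace Pool.Agent.Lib.MP_b1acb3_co.Cyc

open Finset

theorem degenerate_card {V : Type} [Fintype V] (G : SimpleGraph V) (W : Finset V) :
    DegenerateIn G W (Fintype.card V) := by
  classical
  refine ⟨fun v => (Fintype.equivFin V v : ℕ), ?_, ?_⟩
  · intro a _ b _ hab
    exact (Fintype.equivFin V).injective (Fin.ext hab)
  · intro v _
    refine (Set.ncard_le_ncard (Set.subset_univ _)).trans ?_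
    rw [Set.ncard_univ, Nat.card_eq_fintype_card]

theorem numEdgesIn_mono {V : Type} [Fintype V] (G : SimpleGraph V) {W W' : Finset V}
    (h : W' ⊆ W) : numEdgesIn G W' ≤ numEdgesIn G W := by
  classical
  rw [← card_edgesIn, ← card_edgesIn]
  apply card_le_card
  intro e he
  rw [mem_edgesIn] at he ⊢
  exact ⟨he.1, fun x hx => h (he.2 x hx)⟩

theorem param (hL : StLongEars) (hD : StDecomp) (hS : StShort) (hG : StGraph) (hC : StCount) :
    StParam := by
  classical
  intro V _ G W b k d hb hW hacyc hch hbk hsp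
  have hk : 1 ≤ k := by
    by_contra hcon
    have h0 : k = 0 := by omega
    rw [h0] at hch
    have h1 : (0 : ℕ).choose d ≤ 1 := by
      rcases Nat.eq_zero_or_pos d with rfl | hd
      · simp
      · rw [Nat.choose_eq_zero_of_lt hd]
        exact Nat.zero_le _
    have h2 : 1 ≤ (numEdges G + 1) ^ 2 := Nat.one_le_pow _ _ (Nat.succ_pos _)
    omega
  obtain ⟨W', W₀, hWW, hTL, hsub, hcard, hf, hdeg, hforest⟩ := hG V G W b hW hacyc
  obtain ⟨q, m, P, hP⟩ := hD V G W' W₀ hsub hdeg hforest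
  obtain ⟨hc1, hc2⟩ := hC V G W' W₀ q 1 m P le_rfl hP
  have hsum : ∑ i, (m i + 1) = ∑ i, m i + q := by
    rw [sum_add_distrib, sum_const, card_univ, Fintype.card_fin, smul_eq_mul, mul_one]
  have hq : q ≤ 4 * b - 3 := by
    by_cases hne : W'.Nonempty
    · obtain ⟨h1, h2⟩ := hcard hne
      omega
    · rw [not_nonempty_iff_eq_empty] at hne
      rw [hne, card_empty] at hc2
      have h1 : q ≤ ∑ i, m i := by
        calc q = ∑ _i : Fin q, 1 := by simp
          _ ≤ ∑ i, m i := sum_le_sum (fun i _ => hP.long i)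
      omega
  obtain ⟨W₁, q', m', P', hW01, hq', hP', hf1⟩ := hS V G W' W₀ q k m P hk hP
  have hf2 : numEdgesIn G W₁ ≤ 4 * b * (k + 1) := by
    calc numEdgesIn G W₁ ≤ 4 * b + (4 * b - 3) * k :=
          hf1.trans (Nat.add_le_add hf (Nat.mul_le_mul_right _ hq))
      _ ≤ 4 * b + (4 * b) * k := by
          apply Nat.add_le_add_left
          apply Nat.mul_le_mul_right
          omega
      _ = _ := by ring
  have hqk : q' * k ≤ 4 * b * (k + 1) := by
    calc q' * k ≤ (4 * b) * k := Nat.mul_le_mul_right _ (by omega)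
      _ ≤ _ := Nat.mul_le_mul_left _ (by omega)
  refine hL V G W' W₁ q' k d m' P' (Fintype.card V) hTL hP' (degenerate_card G W₁) (Or.inl ?_)
    ?_ hch ?_
  · -- `choose 2`
    have h1 : (numEdgesIn G W₁).choose 2 ≤ (numEdgesIn G W₁) ^ 2 / 2 := by
      rw [Nat.choose_two_right]
      apply Nat.div_le_div_right
      rw [sq]
      exact Nat.mul_le_mul_left _ (Nat.sub_le _ _)
    have h2 : (numEdgesIn G W₁) ^ 2 ≤ 16 * b ^ 2 * (k + 1) ^ 2 := by
      calc (numEdgesIn G W₁) ^ 2 ≤ (4 * b * (k + 1)) ^ 2 := Nat.pow_le_pow_left hf2 2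
        _ = _ := by ring
    have h3 : 16 * b ^ 2 * (k + 1) ^ 2 ≤ 2 * numEdges G := by nlinarith
    omega
  · have h1 : numEdgesIn G W₁ + q' * k ≤ 8 * b * (k + 1) := by
      calc numEdgesIn G W₁ + q' * k ≤ 4 * b * (k + 1) + 4 * b * (k + 1) :=
            Nat.add_le_add hf2 hqk
        _ = _ := by ring
    have h2 : 2 * k * (numEdgesIn G W₁ + q' * k) ≤ 2 * k * (8 * b * (k + 1)) :=
      Nat.mul_le_mul_left _ h1
    have h3 : 2 * k * (8 * b * (k + 1)) ≤ 24 * b ^ 2 * (k + 1) ^ 2 := by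
      have h4 : b ≤ b ^ 2 := by nlinarith
      calc 2 * k * (8 * b * (k + 1)) = 16 * b * (k * (k + 1)) := by ring
        _ ≤ 16 * b * ((k + 1) * (k + 1)) := by
            apply Nat.mul_le_mul_left
            exact Nat.mul_le_mul_right _ (by omega)
        _ = 16 * (b * (k + 1) ^ 2) := by ring
        _ ≤ 24 * (b ^ 2 * (k + 1) ^ 2) :=
            Nat.mul_le_mul (by norm_num) (Nat.mul_le_mul_right _ h4)
        _ = _ := by ring
    omega
  · have h1 := numEdgesIn_mono G hWW
    have h2 : q' * d ≤ (4 * b - 3) * d := Nat.mul_le_mul_right _ (hq'.trans hq)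
    omega

end Pool.Agent.Lib.MP_b1acb3_co.Cyc
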