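import Pool.Agent.Lib.MP_b1acb3_co.Cyc.Defs

/-!
Statements of the modules of the theorem on graphs of bounded cyclomatic number.
-/

namespace Pool.Agent.Lib.MP_b1acb3_co.Cyc

open Finset

/-- (C0) Rainbow embedding of the part `G[W₀]` (from the landed theorem `positive_degenerate`,
applied to the graph consisting of `G[W₀]` and isolated edges). -/
def StCore : Prop := ∀ (V : Type) [Fintype V] (G : SimpleGraph V) (W₀ : Finset V) (d₁ : ℕ),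
  DegenerateIn G W₀ d₁ →
  ((numEdgesIn G W₀).choose 2 ≤ numEdges G ∨ 2 * d₁ * numEdgesIn G W₀ ≤ numEdges G + 1) →
  ∃ ε : ℝ, 0 < ε ∧ ∃ n₀ : ℕ, ∀ n : ℕ, n₀ ≤ n → ∀ c : Sym2 (Fin n) → Fin (numEdges G + 1),
    IsBalanced ε c → ∃ f : V → Fin n, Function.Injective f ∧
      Set.InjOn (fun e : Sym2 V => c (e.map f)) (edgesIn G W₀ : Set (Sym2 V))

/-- (C1) Exact kernels close to a balanced colouring. -/
def StExact : Prop := ∀ (K : ℕ), 0 < K → ∀ δ : ℝ, 0 < δ → ∃ ε : ℝ, 0 < ε ∧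
  ∀ (n : ℕ), 0 < n → ∀ c : Sym2 (Fin n) → Fin K, IsBalanced ε c →
    ∃ B : Fin K → Matrix (Fin n) (Fin n) ℝ, Exact B ∧
      ∀ k i j, B k i j ≤ (if c s(i, j) = k then 1 else 0) + δ

/-- (C2) Ear lemma. -/
def StEar : Prop := ∀ (n K : ℕ) (B : Fin K → Matrix (Fin n) (Fin n) ℝ), Exact B → 0 < K →
  ∀ (k d : ℕ) (U : Finset (Fin K)) (x : Fin n), d < k → 2 * k * (U.card + k) ≤ K →
    16 * K ^ 2 ≤ k.choose d →
    ∃ σ : Fin k → Fin K, Function.Injective σ ∧ (∀ i, σ i ∉ U) ∧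
      ∀ (ρ : List (Fin K)) (y : Fin n), ρ ≠ [] →
        ∃ D : Finset (Fin k), D.card = d ∧ 1 / 2 ≤ (n : ℝ) * wker B (del σ D ++ ρ) x y

/-- (C3) From the kernel of a word to a path in the coloured complete graph. -/
def StPath : Prop := ∀ (K l v : ℕ), 0 < K → ∃ δ : ℝ, 0 < δ ∧ ∃ n₀ : ℕ, ∀ n : ℕ, n₀ ≤ n →
  ∀ (c : Sym2 (Fin n) → Fin K) (B : Fin K → Matrix (Fin n) (Fin n) ℝ),
    (∀ k i j, 0 ≤ B k i j) →
    (∀ k i j, B k i j ≤ (if c s(i, j) = k then 1 else 0) + δ) →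
    ∀ (w : List (Fin K)) (x y : Fin n) (Z : Finset (Fin n)), w.length = l → w ≠ [] →
      Z.card ≤ v → 1 / 2 ≤ (n : ℝ) * wker B w x y →
      ∃ z : ℕ → Fin n, z 0 = x ∧ z l = y ∧
        (∀ (i : ℕ) (hi : i < w.length), c s(z i, z (i + 1)) = w[i]) ∧
        (∀ i, 1 ≤ i → i < l → z i ∉ Z) ∧
        (∀ i j, 1 ≤ i → i < l → 1 ≤ j → j < l → z i = z j → i = j)

/-- (C4) Choice of disjoint blocks: from (C2), one block for each of `q` ears. -/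
def StBlocks : Prop := ∀ (n K : ℕ) (B : Fin K → Matrix (Fin n) (Fin n) ℝ), Exact B → 0 < K →
  ∀ (q k d : ℕ) (F : Finset (Fin K)) (x : Fin q → Fin n), d < k → 2 * k * (F.card + q * k) ≤ K →
    16 * K ^ 2 ≤ k.choose d →
    ∃ σ : Fin q → Fin k → Fin K,
      (∀ i j i' j', σ i j = σ i' j' → i = i' ∧ j = j') ∧ (∀ i j, σ i j ∉ F) ∧
      ∀ (i : Fin q) (ρ : List (Fin K)) (y : Fin n), ρ ≠ [] →
        ∃ D : Finset (Fin k), D.card = d ∧ 1 / 2 ≤ (n : ℝ) * wker B (del (σ i) D ++ ρ) (x i) y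

/-- (C5) Number of edges of a union of ears. -/
def StCount : Prop := ∀ (V : Type) [Fintype V] (G : SimpleGraph V) (W W₀ : Finset V) (q k : ℕ)
  (m : Fin q → ℕ) (P : Fin q → ℕ → V), 1 ≤ k → Ears G W W₀ q k m P →
  numEdgesIn G W = numEdgesIn G W₀ + ∑ i, (m i + 1) ∧ W.card = W₀.card + ∑ i, m i

/-- (C6) Embedding of the ears: main assembly. -/
def StLongEars : Prop := ∀ (V : Type) [Fintype V] (G : SimpleGraph V) (W W₀ : Finset V)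
  (q k d : ℕ) (m : Fin q → ℕ) (P : Fin q → ℕ → V) (d₁ : ℕ),
  TreeLikeOutside G W → Ears G W W₀ q k m P → DegenerateIn G W₀ d₁ →
  ((numEdgesIn G W₀).choose 2 ≤ numEdges G ∨ 2 * d₁ * numEdgesIn G W₀ ≤ numEdges G + 1) →
  2 * k * (numEdgesIn G W₀ + q * k) ≤ numEdges G + 1 →
  16 * (numEdges G + 1) ^ 2 ≤ k.choose d →
  numEdgesIn G W + q * d ≤ numEdges G + 1 →
  ForcesRainbow G

/-- (C7) Ear decomposition. -/
def StDecomp : Prop := ∀ (V : Type) [Fintype V] (G : SimpleGraph V) (W W₀ : Finset V),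
  W₀ ⊆ W → (∀ v ∈ W, v ∉ W₀ → {u | u ∈ W ∧ G.Adj v u}.ncard = 2) → ForestOutside G W W₀ →
  ∃ (q : ℕ) (m : Fin q → ℕ) (P : Fin q → ℕ → V), Ears G W W₀ q 1 m P

/-- (C8) The ears with fewer than `k` inner vertices can be moved to `W₀`. -/
def StShort : Prop := ∀ (V : Type) [Fintype V] (G : SimpleGraph V) (W W₀ : Finset V) (q k : ℕ)
  (m : Fin q → ℕ) (P : Fin q → ℕ → V), 1 ≤ k → Ears G W W₀ q 1 m P →
  ∃ (W₁ : Finset V) (q' : ℕ) (m' : Fin q' → ℕ) (P' : Fin q' → ℕ → V),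
    W₀ ⊆ W₁ ∧ q' ≤ q ∧ Ears G W W₁ q' k m' P' ∧
    numEdgesIn G W₁ ≤ numEdgesIn G W₀ + q * k

/-- (C9) The graph theory: a graph that becomes a forest after deleting `b` edges has a part
`W' ⊆ W` (its 2-core) and a set `W₀ ⊆ W'` of at most `3 b - 2` vertices outside which all degrees
in `W'` are `2` and which meets all cycles. -/
def StGraph : Prop := ∀ (V : Type) [Fintype V] (G : SimpleGraph V) (W : Finset V) (b : ℕ),
  TreeLikeOutside G W →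
  (∃ S : Finset (Sym2 V), S.card ≤ b ∧ (G.deleteEdges (S : Set (Sym2 V))).IsAcyclic) →
  ∃ W' W₀ : Finset V, W' ⊆ W ∧ TreeLikeOutside G W' ∧ W₀ ⊆ W' ∧
    (W'.Nonempty → W₀.card + 2 ≤ 3 * b ∧ numEdgesIn G W' + 1 ≤ W'.card + b) ∧
    numEdgesIn G W₀ ≤ 4 * b ∧
    (∀ v ∈ W', v ∉ W₀ → {u | u ∈ W' ∧ G.Adj v u}.ncard = 2) ∧ ForestOutside G W' W₀

/-- (C10) The parametric form of the theorem on the cyclomatic number. -/
def StParam : Prop := ∀ (V : Type) [Fintype V] (G : SimpleGraph V) (W : Finset V) (b k d : ℕ),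
  1 ≤ b → TreeLikeOutside G W →
  (∃ S : Finset (Sym2 V), S.card ≤ b ∧ (G.deleteEdges (S : Set (Sym2 V))).IsAcyclic) →
  16 * (numEdges G + 1) ^ 2 ≤ k.choose d → 24 * b ^ 2 * (k + 1) ^ 2 ≤ numEdges G →
  numEdgesIn G W + (4 * b - 3) * d ≤ numEdges G + 1 →
  ForcesRainbow G

/-- (C11) Numerical choice of `k` for `d = 5`. -/
def StNum : Prop := ∃ C : ℕ, 0 < C ∧ ∀ b e : ℕ, 1 ≤ b → C * b ^ 10 ≤ e →
  ∃ k : ℕ, 16 * (e + 1) ^ 2 ≤ k.choose 5 ∧ 24 * b ^ 2 * (k + 1) ^ 2 ≤ e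

/-- (C12) The parity obstruction for one edge outside an even subgraph. -/
def StNeg : Prop := ∀ (V : Type) [Fintype V] (G : SimpleGraph V) (r : ℕ), 2 ≤ r →
  numEdges G + 1 = 2 ^ r →
  (∃ e₀ ∈ G.edgeSet, ∀ v, Even {u | G.Adj v u ∧ s(v, u) ≠ e₀}.ncard) →
  (∀ (ε : ℝ), 0 < ε → ∀ n₀ : ℕ, ∃ n : ℕ, n₀ ≤ n ∧ ∃ c : Sym2 (Fin n) → Fin (numEdges G + 1),
    IsBalanced ε c ∧ (∀ k, ∃ D, ∀ i, colourDegree c i k = D) ∧ ¬ HasRainbowCopy G c)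

end Pool.Agent.Lib.MP_b1acb3_co.Cyc
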