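import Pool.Agent.Lib.MP_b1acb3_co.Cyc.Stmts

/-!
Assembly, part 1: the words of the ears.
-/

namespace Pool.Agent.Lib.MP_b1acb3_co.Cyc

open Finset

theorem length_del {K k : ℕ} (σ : Fin k → Fin K) (D : Finset (Fin k)) :
    (del σ D).length = k - D.card := by
  classical
  unfold del
  rw [List.length_map]
  have h1 : ((List.finRange k).filter (fun i => i ∉ D)).Nodup :=
    List.Nodup.filter _ (List.nodup_finRange k)
  rw [← List.toFinset_card_of_nodup h1]
  have h2 : ((List.finRange k).filter (fun i => i ∉ D)).toFinset = Dᶜ := by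
    ext i
    simp
  rw [h2, card_compl, Fintype.card_fin]

theorem nodup_del {K k : ℕ} (σ : Fin k → Fin K) (hσ : Function.Injective σ)
    (D : Finset (Fin k)) : (del σ D).Nodup :=
  List.Nodup.map hσ (List.Nodup.filter _ (List.nodup_finRange k))

theorem mem_del {K k : ℕ} (σ : Fin k → Fin K) (D : Finset (Fin k)) (a : Fin K)
    (ha : a ∈ del σ D) : ∃ j, σ j = a := by
  unfold del at ha
  rw [List.mem_map] at ha
  obtain ⟨j, _, hj⟩ := ha
  exact ⟨j, hj⟩

/-- Choice of the words of all ears. -/
theorem words (hB : StBlocks) (n K : ℕ) (B : Fin K → Matrix (Fin n) (Fin n) ℝ) (hE : Exact B)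
    (hK : 0 < K) (q k d : ℕ) (m : Fin q → ℕ) (F : Finset (Fin K)) (x y : Fin q → Fin n)
    (hdk : d < k) (hm : ∀ i, k ≤ m i) (h1 : 2 * k * (F.card + q * k) ≤ K)
    (h2 : 16 * K ^ 2 ≤ k.choose d) (h3 : F.card + ∑ i, (m i + 1) + q * d ≤ K) :
    ∃ w : Fin q → List (Fin K), (∀ i, (w i).length = m i + 1) ∧
      (∀ i, 1 / 2 ≤ (n : ℝ) * wker B (w i) (x i) (y i)) ∧
      (∀ (i : Fin q) (j : ℕ) (hj : j < (w i).length) (i' : Fin q) (j' : ℕ)
        (hj' : j' < (w i').length), (w i)[j] = (w i')[j'] → i = i' ∧ j = j') ∧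
      (∀ (i : Fin q) (j : ℕ) (hj : j < (w i).length), (w i)[j] ∉ F) := by
  classical
  obtain ⟨σ, hσ1, hσ2, hσ3⟩ := hB n K B hE hK q k d F x hdk h1 h2
  set T : Finset (Fin K) := (univ : Finset (Fin q × Fin k)).image (fun p => σ p.1 p.2) with hT
  have hTcard : T.card ≤ q * k := by
    refine card_image_le.trans ?_
    rw [card_univ, Fintype.card_prod, Fintype.card_fin, Fintype.card_fin]
  set R : Finset (Fin K) := (F ∪ T)ᶜ with hR
  have hRcard : K ≤ R.card + (F.card + q * k) := by
    have h4 := card_compl (F ∪ T)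
    have h5 := card_union_le F T
    rw [Fintype.card_fin] at h4
    rw [hR, h4]
    omega
  set r : Fin q → ℕ := fun i => m i + 1 - (k - d) with hr
  have hsum : (∑ i, r i) ≤ R.card := by
    have h4 : ∑ i, (m i + 1) = ∑ i, r i + q * (k - d) := by
      have : ∑ i, (m i + 1) = ∑ i, (r i + (k - d)) := by
        apply sum_congr rfl
        intro i _
        have := hm i
        simp only [hr]
        omega
      rw [this, sum_add_distrib, sum_const, card_univ, Fintype.card_fin, smul_eq_mul]
    have h5 : q * (k - d) + q * d = q * k := by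
      rw [← mul_add]
      congr 1
      omega
    omega
  have hcard : Fintype.card (Σ i : Fin q, Fin (r i)) ≤ Fintype.card {a // a ∈ R} := by
    rw [Fintype.card_sigma, Fintype.card_coe]
    simpa using hsum
  obtain ⟨τ⟩ := Function.Embedding.nonempty_of_card_le hcard
  set ρ : Fin q → List (Fin K) := fun i => List.ofFn (fun t : Fin (r i) => (τ ⟨i, t⟩ : Fin K))
    with hρ
  have hρlen : ∀ i, (ρ i).length = r i := fun i => by
    simp only [hρ]
    exact List.length_ofFn
  have hρne : ∀ i, ρ i ≠ [] := by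
    intro i h
    have h4 := hρlen i
    rw [h, List.length_nil] at h4
    have h5 := hm i
    simp only [hr] at h4
    omega
  have hρnd : ∀ i, (ρ i).Nodup := by
    intro i
    simp only [hρ]
    rw [List.nodup_ofFn]
    intro a b hab
    have h4 := τ.injective (Subtype.ext hab)
    simpa using h4
  have hρmem : ∀ i a, a ∈ ρ i → ∃ t : Fin (r i), (τ ⟨i, t⟩ : Fin K) = a := by
    intro i a ha
    simp only [hρ] at ha
    rw [List.mem_ofFn] at ha
    exact ha
  choose D hD1 hD2 using fun i => hσ3 i (ρ i) (y i) (hρne i)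
  refine ⟨fun i => del (σ i) (D i) ++ ρ i, ?_, hD2, ?_, ?_⟩
  · intro i
    have := hm i
    rw [List.length_append, length_del, hD1, hρlen]
    simp only [hr]
    omega
  · -- letters determine the place
    have hnd : ∀ i, (del (σ i) (D i) ++ ρ i).Nodup := by
      intro i
      rw [List.nodup_append']
      refine ⟨nodup_del _ (fun a b hab => (hσ1 i a i b hab).2) _, hρnd i, ?_⟩
      intro a ha hb
      obtain ⟨j, rfl⟩ := mem_del _ _ _ ha
      obtain ⟨t, ht⟩ := hρmem i _ hb
      have h4 : (τ ⟨i, t⟩ : Fin K) ∈ R := (τ ⟨i, t⟩).2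
      rw [ht, hR, mem_compl, mem_union, not_or] at h4
      apply h4.2
      rw [hT, mem_image]
      exact ⟨(i, j), mem_univ _, rfl⟩
    have hdisj : ∀ i i' a, a ∈ del (σ i) (D i) ++ ρ i → a ∈ del (σ i') (D i') ++ ρ i' →
        i = i' := by
      intro i i' a ha ha'
      rw [List.mem_append] at ha ha'
      rcases ha with ha | ha
      · obtain ⟨j, rfl⟩ := mem_del _ _ _ ha
        rcases ha' with ha' | ha'
        · obtain ⟨j', hj'⟩ := mem_del _ _ _ ha'
          exact (hσ1 i' j' i j hj').1.symm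
        · exfalso
          obtain ⟨t, ht⟩ := hρmem i' _ ha'
          have h4 : (τ ⟨i', t⟩ : Fin K) ∈ R := (τ ⟨i', t⟩).2
          rw [ht, hR, mem_compl, mem_union, not_or] at h4
          apply h4.2
          rw [hT, mem_image]
          exact ⟨(i, j), mem_univ _, rfl⟩
      · obtain ⟨t, rfl⟩ := hρmem i _ ha
        rcases ha' with ha' | ha'
        · exfalso
          obtain ⟨j, hj⟩ := mem_del _ _ _ ha'
          have h4 : (τ ⟨i, t⟩ : Fin K) ∈ R := (τ ⟨i, t⟩).2
          rw [← hj, hR, mem_compl, mem_union, not_or] at h4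
          apply h4.2
          rw [hT, mem_image]
          exact ⟨(i', j), mem_univ _, rfl⟩
        · obtain ⟨t', ht'⟩ := hρmem i' _ ha'
          have h4 := τ.injective (Subtype.ext ht')
          have h5 := congrArg Sigma.fst h4
          exact h5.symm
    intro i j hj i' j' hj' h
    have hii : i = i' := by
      apply hdisj i i' _ (List.getElem_mem hj)
      rw [h]
      exact List.getElem_mem hj'
    subst hii
    exact ⟨rfl, (List.Nodup.getElem_inj_iff (hnd i)).1 h⟩
  · intro i j hj hmem
    have h4 := List.getElem_mem hj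
    rw [List.mem_append] at h4
    rcases h4 with h4 | h4
    · obtain ⟨j', hj'⟩ := mem_del _ _ _ h4
      apply hσ2 i j'
      rw [hj']
      exact hmem
    · obtain ⟨t, ht⟩ := hρmem i _ h4
      have h5 : (τ ⟨i, t⟩ : Fin K) ∈ R := (τ ⟨i, t⟩).2
      rw [ht, hR, mem_compl, mem_union, not_or] at h5
      exact h5.1 hmem

end Pool.Agent.Lib.MP_b1acb3_co.Cyc
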